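import Pool.Agent.MP_e8e0b6_ag.QS.Lindel1

/-!
Lindel's presentation of a smooth local ring, and its two consequences: unique factorisation and
freeness of projective modules over the polynomial ring.
-/

open MvPolynomial IsLocalRing

namespace Pool.Agent.MP_e8e0b6_ag

theorem surj_mod {P B A R : Type} [CommRing P] [CommRing B] [CommRing A] [CommRing R]
    [Algebra P B] [Algebra P A] [Algebra B R] [Algebra P R] [Algebra A R] [IsScalarTower P B R]
    [IsScalarTower P A R] [IsLocalRing A] [IsLocalRing R] (n : Ideal P) [n.IsPrime]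
    (m : Ideal B) [m.IsPrime] [IsLocalization.AtPrime A n] [IsLocalization.AtPrime R m] (f : B)
    [Module.Finite P (B ⧸ Ideal.span {f})]
    (U : ∀ q : Ideal B, q.IsPrime → f ∈ q → n ≤ q.comap (algebraMap P B) → q = m)
    (hm : (maximalIdeal A).map (algebraMap A R) = maximalIdeal R)
    (hres : ∀ r : R, ∃ a : A, r - algebraMap A R a ∈ maximalIdeal R) (r : R) :
    ∃ a x, r = algebraMap A R a + algebraMap B R f * x := by
  let F : Submodule A R := (Ideal.span {algebraMap B R f}).restrictScalars A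
  obtain ⟨s, g, hg⟩ := Module.Finite.exists_fin (R := P) (M := B ⧸ Ideal.span {f})
  choose g' hg' using fun i => Ideal.Quotient.mk_surjective (g i)
  let G : Submodule A R := Submodule.span A (Set.range fun i => algebraMap B R (g' i))
  have hB : ∀ b : B, algebraMap B R b ∈ F ⊔ G := fun b => by
    obtain ⟨p, hp⟩ := (Submodule.mem_span_range_iff_exists_fun P).1
      (hg ▸ Submodule.mem_top : Ideal.Quotient.mk _ b ∈ Submodule.span P (Set.range g))
    have : b - ∑ i, p i • g' i ∈ Ideal.span {f} := by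
      rw [← Ideal.Quotient.eq, ← hp, map_sum]
      exact Finset.sum_congr rfl fun i _ => by rw [← hg']; rfl
    have h1 : algebraMap B R (b - ∑ i, p i • g' i) ∈ F := by
      have := Ideal.mem_map_of_mem (algebraMap B R) this
      rwa [Ideal.map_span, Set.image_singleton] at this
    have h2 : algebraMap B R (∑ i, p i • g' i) ∈ G := by
      rw [map_sum]
      refine sum_mem fun i _ => ?_
      rw [Algebra.smul_def, map_mul, ← IsScalarTower.algebraMap_apply,
        IsScalarTower.algebraMap_apply P A R, ← Algebra.smul_def]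
      exact G.smul_mem _ (Submodule.subset_span ⟨i, rfl⟩)
    have := Submodule.add_mem_sup h1 h2
    rwa [← map_add, sub_add_cancel] at this
  have hFG : F ⊔ G = ⊤ := by
    rw [eq_top_iff]
    rintro r -
    obtain ⟨⟨b, c, hc⟩, rfl⟩ := IsLocalization.mk'_surjective m.primeCompl r
    obtain ⟨t, ht, ht'⟩ : ∃ t ∉ n, algebraMap P _ t ∈ Ideal.span {Ideal.Quotient.mk
        (Ideal.span {f}) c} := by
      by_contra! h
      obtain ⟨Q, hQ, _, hQ'⟩ := Ideal.exists_ideal_over_prime_of_isIntegral n
        (Ideal.span {Ideal.Quotient.mk (Ideal.span {f}) c}) fun t ht => by_contra fun h' => h t h' ht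
      have := U (Q.comap (Ideal.Quotient.mk _)) inferInstance (by
        rw [Ideal.mem_comap, Ideal.Quotient.eq_zero_iff_mem.2 (Ideal.mem_span_singleton_self f)]
        exact zero_mem _) (by rw [← hQ']; exact fun _ h => h)
      exact hc (this ▸ hQ (Ideal.mem_span_singleton_self _))
    obtain ⟨c', hc'⟩ := Ideal.mem_span_singleton'.1 ht'
    obtain ⟨c', rfl⟩ := Ideal.Quotient.mk_surjective c'
    obtain ⟨d, hd⟩ := Ideal.mem_span_singleton'.1 (Ideal.Quotient.eq.1
      (show Ideal.Quotient.mk _ (c' * c) = Ideal.Quotient.mk _ (algebraMap P B t) from hc'))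
    obtain ⟨u, hu⟩ := IsLocalization.map_units A (⟨t, ht⟩ : n.primeCompl)
    have e1 : algebraMap A R u = algebraMap B R (c' * c - d * f) := by
      rw [hd, sub_sub_cancel, hu, ← IsScalarTower.algebraMap_apply,
        ← IsScalarTower.algebraMap_apply]
    set r := IsLocalization.mk' R b (⟨c, hc⟩ : m.primeCompl)
    have e2 : r * algebraMap B R c = algebraMap B R b := IsLocalization.mk'_spec R b _
    have e3 : (u : A) • r = -(algebraMap B R d * r) * algebraMap B R f + algebraMap B R (c' * b) := by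
      rw [Algebra.smul_def, e1, map_sub, map_mul, map_mul, map_mul, ← e2]; ring
    have : (u : A) • r ∈ F ⊔ G := by
      rw [e3]
      exact add_mem (Submodule.mem_sup_left (Ideal.mem_span_singleton'.2 ⟨_, rfl⟩)) (hB _)
    exact (Submodule.smul_mem_iff_of_isUnit _ u.isUnit).1 this
  have key : G ≤ Submodule.span A {1} ⊔ F := by
    refine Submodule.le_of_le_smul_of_le_jacobson_bot (Submodule.fg_span (Set.finite_range _))
      (maximalIdeal_le_jacobson ⊥) fun r _ => ?_
    obtain ⟨a, ha⟩ := hres r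
    rw [← hm, ← Submodule.restrictScalars_mem A, ← Ideal.smul_top_eq_map, ← hFG,
      Submodule.smul_sup] at ha
    have h1 := (sup_le_sup_right (le_sup_right.trans' Submodule.smul_le_right :
      maximalIdeal A • F ≤ Submodule.span A {1} ⊔ F) _) ha
    have h2 : algebraMap A R a ∈ (Submodule.span A {1} ⊔ F) ⊔ maximalIdeal A • G :=
      Submodule.mem_sup_left (Submodule.mem_sup_left (Submodule.mem_span_singleton.2
        ⟨a, by rw [Algebra.smul_def, mul_one]⟩))
    simpa using add_mem h1 h2
  have : r ∈ Submodule.span A {1} ⊔ F :=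
    (sup_le le_sup_right key) (hFG ▸ Submodule.mem_top : r ∈ F ⊔ G)
  obtain ⟨y, hy, z, hz, rfl⟩ := Submodule.mem_sup.1 this
  obtain ⟨a, rfl⟩ := Submodule.mem_span_singleton.1 hy
  obtain ⟨x, rfl⟩ := Ideal.mem_span_singleton'.1 hz
  exact ⟨a, x, by rw [Algebra.smul_def, mul_one, mul_comm]⟩

theorem exists_principal {A R : Type} [CommRing A] [CommRing R] [Algebra A R] [IsLocalRing R]
    [IsDomain R] [Algebra.FormallyUnramified A R] (f : R) (h0 : f ≠ 0) (hf : f ∈ maximalIdeal R)
    (hs : ∀ r : R, ∃ a x, r = algebraMap A R a + f * x) :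
    ∃ h : A, Associated (algebraMap A R h) f := by
  let J := (Ideal.span {f}).comap (algebraMap A R)
  let I := J.map (algebraMap A R) ⊔ Ideal.span {f ^ 2}
  let e : (A ⧸ J) ≃ₐ[A] R ⧸ Ideal.span {f} := AlgEquiv.ofBijective
    (Ideal.quotientMapₐ _ (Algebra.ofId A R) le_rfl) ⟨Ideal.quotientMap_injective, fun r => by
      obtain ⟨r, rfl⟩ := Ideal.Quotient.mk_surjective r
      obtain ⟨a, x, rfl⟩ := hs r
      refine ⟨Ideal.Quotient.mk _ a, Ideal.Quotient.eq.2 ?_⟩
      exact Ideal.mem_span_singleton'.2 ⟨-x, by change _ = algebraMap A R a - _; ring⟩⟩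
  let φ : R →ₐ[A] R ⧸ I := ((Ideal.quotientMapₐ I (Algebra.ofId A R) (fun a ha =>
    Ideal.mem_sup_left (Ideal.mem_map_of_mem _ ha))).comp e.symm.toAlgHom).comp
      (Ideal.Quotient.mkₐ A _)
  have hφ : φ f = 0 := by
    have : Ideal.Quotient.mkₐ A (Ideal.span {f}) f = 0 :=
      Ideal.Quotient.eq_zero_iff_mem.2 (Ideal.mem_span_singleton_self f)
    simp only [φ, AlgHom.comp_apply, this, map_zero]
  have := Algebra.FormallyUnramified.ext (R := A) (Ideal.span {Ideal.Quotient.mk I f})
    ⟨2, by
      rw [Ideal.span_singleton_pow, ← map_pow, Ideal.Quotient.eq_zero_iff_mem.2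
        (Ideal.mem_sup_right (Ideal.mem_span_singleton_self _))]
      simp⟩ (g₁ := φ) (g₂ := Ideal.Quotient.mkₐ A I) fun r => by
      obtain ⟨a, x, rfl⟩ := hs r
      rw [Ideal.Quotient.eq, map_add, map_add, map_mul, map_mul, hφ, AlgHom.commutes,
        AlgHom.commutes]
      exact Ideal.mem_span_singleton'.2 ⟨-Ideal.Quotient.mkₐ A I x, by
        rw [Ideal.Quotient.mkₐ_eq_mk]; ring⟩
  rw [this, Ideal.Quotient.mkₐ_eq_mk, Ideal.Quotient.eq_zero_iff_mem] at hφ
  obtain ⟨y, hy, z, hz, e1⟩ := Submodule.mem_sup.1 hφ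
  obtain ⟨c, rfl⟩ := Ideal.mem_span_singleton'.1 hz
  by_contra! h
  have : J.map (algebraMap A R) ≤ Ideal.span {f} * maximalIdeal R := by
    rw [Ideal.map_le_iff_le_comap]
    intro a ha
    obtain ⟨x, hx⟩ := Ideal.mem_span_singleton'.1 ha
    rw [Ideal.mem_comap, ← hx, mul_comm x]
    refine Ideal.mul_mem_mul (Ideal.mem_span_singleton_self _) fun hu => h a ?_
    rw [← hx]
    exact associated_unit_mul_left _ _ hu
  obtain ⟨x, hx, e2⟩ := Ideal.mem_span_singleton_mul.1 (this hy)
  have e3 : x + c * f = 1 := mul_left_cancel₀ h0 (by linear_combination e1 + e2)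
  exact (maximalIdeal.isMaximal R).ne_top ((Ideal.eq_top_iff_one _).2
    (e3 ▸ add_mem hx (Ideal.mul_mem_left _ _ hf)))

variable {k : Type} [Field k]

/-- The maximal ideal of a rational point. -/
def kerPt {B : Type} [CommRing B] [Algebra k B] (ev : B →ₐ[k] k) : Ideal B := RingHom.ker ev

instance {B : Type} [CommRing B] [Algebra k B] (ev : B →ₐ[k] k) : (kerPt ev).IsMaximal :=
  RingHom.ker_isMaximal_of_surjective ev fun c => ⟨algebraMap k B c, ev.commutes c⟩

theorem mem_kerPt {B : Type} [CommRing B] [Algebra k B] {ev : B →ₐ[k] k} {b : B} :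
    b ∈ kerPt ev ↔ ev b = 0 := Iff.rfl

theorem exists_coords {B : Type} [CommRing B] [IsDomain B] [Algebra k B] {n : ℕ}
    (z : MvPolynomial (Fin n) k →ₐ[k] B) (hz : z.toRingHom.Etale) (ev : B →ₐ[k] k) (f : B)
    (h0 : f ≠ 0) (hf : ev f = 0) : ∃ y : Fin n → B,
      (∀ i, y i - (z (X i) - algebraMap k B (ev (z (X i)))) ∈ kerPt ev ^ 2) ∧
      ((Ideal.Quotient.mk (Ideal.span {f})).comp
        (aeval y : MvPolynomial (Fin n) k →ₐ[k] B).toRingHom).Finite ∧
      ∀ q : Ideal B, q.IsPrime → f ∈ q → (∀ i, y i ∈ q) → q = kerPt ev := by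
  classical
  have : Algebra.FiniteType k B := by
    algebraize [z.toRingHom]
    have := IsScalarTower.of_algebraMap_eq' z.comp_algebraMap.symm
    exact .trans (S := MvPolynomial (Fin n) k) inferInstance inferInstance
  let π := Ideal.Quotient.mkₐ k (Ideal.span {f})
  have : Nontrivial (B ⧸ Ideal.span {f}) := Ideal.Quotient.nontrivial_iff.2 fun h =>
    (inferInstance : (kerPt ev).IsMaximal).ne_top
      (eq_top_iff.2 (h.ge.trans ((Ideal.span_singleton_le_iff_mem _).2 hf)))
  obtain ⟨d, g, hg, hg'⟩ := exists_finite_inj_algHom_of_fg k (B ⧸ Ideal.span {f})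
  have hd := noether_lt z hz f h0 g hg hg'
  obtain ⟨m, rfl⟩ : ∃ m, n = m + 1 := ⟨n - 1, by omega⟩
  choose w₀ hw₀ using fun i => Ideal.Quotient.mk_surjective (g (X i))
  let w : Fin m → B := fun i =>
    if h : (i : ℕ) < d then w₀ ⟨i, h⟩ - algebraMap k B (ev (w₀ ⟨i, h⟩)) else 0
  have hw : ∀ i, w i ∈ kerPt ev := fun i => by
    simp only [w, mem_kerPt]; split_ifs <;> simp
  let zz : Fin (m + 1) → B := fun i => z (X i) - algebraMap k B (ev (z (X i)))
  have h1 : (aeval (fun i => π (w i)) : MvPolynomial (Fin m) k →ₐ[k] _).toRingHom.Finite := by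
    let τ : MvPolynomial (Fin d) k →ₐ[k] MvPolynomial (Fin m) k :=
      aeval fun i => X (i.castLE (by omega)) + C (ev (w₀ i))
    have : (aeval (fun i => π (w i))).comp τ = g := by
      ext i
      simp only [AlgHom.comp_apply, aeval_X, map_add, aeval_C, τ, w, Fin.val_castLE, i.2,
        dite_true, map_sub, AlgHom.commutes, sub_add_cancel]
      exact hw₀ i
    refine RingHom.Finite.of_comp_finite (f := τ.toRingHom) ?_
    rw [← this] at hg'
    exact hg'
  obtain ⟨M, hM⟩ := finite_of_pow_add _ (fun i => π (zz i.succ)) h1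
  let y' : Fin m → B := fun i => w i ^ (M + 2) + zz i.succ
  let I := Ideal.span {f} ⊔ Ideal.span (Set.range y')
  have : Module.Finite k (B ⧸ I) := by
    have h2 := (RingHom.Finite.of_surjective _
      (Ideal.Quotient.factor_surjective (le_sup_left : Ideal.span {f} ≤ I))).comp hM
    refine RingHom.finite_algebraMap.1 (RingHom.Finite.of_comp_finite
      (f := (aeval 0 : MvPolynomial (Fin m) k →ₐ[k] k).toRingHom) ?_)
    convert h2 using 1
    refine MvPolynomial.ringHom_ext (fun c => by simp; rfl) fun i => ?_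
    have : Ideal.Quotient.mk I (y' i) = 0 := Ideal.Quotient.eq_zero_iff_mem.2
      (Ideal.mem_sup_right (Ideal.subset_span ⟨i, rfl⟩))
    simpa [π, y'] using this.symm
  have : IsArtinianRing (B ⧸ I) := IsArtinianRing.of_finite k _
  let S := ((IsArtinianRing.setOfPred_isPrime_finite (B ⧸ I)).toFinset.image
    (Ideal.comap (Ideal.Quotient.mk I))).erase (kerPt ev)
  have hS : IsCoprime (kerPt ev ^ 2) (⨅ q ∈ S, q) := (Ideal.isCoprime_biInf fun q hq => by
    obtain ⟨h1, h2⟩ := Finset.mem_erase.1 hq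
    obtain ⟨q, hq', rfl⟩ := Finset.mem_image.1 h2
    have : q.IsPrime := by simpa using hq'
    have := IsArtinianRing.isMaximal_of_isPrime q
    have := Ideal.comap_isMaximal_of_surjective (Ideal.Quotient.mk I) Ideal.Quotient.mk_surjective
      (K := q)
    exact Ideal.isCoprime_of_isMaximal h1.symm).pow_left
  obtain ⟨ε, hε, δ, hδ, e⟩ := Ideal.isCoprime_iff_exists.1 hS
  refine ⟨Fin.cons (zz 0 * δ + ε) y', fun i => ?_, ?_, fun q hq hfq hy => ?_⟩
  · refine Fin.cases ?_ (fun i => ?_) i
    · have : zz 0 * δ + ε - zz 0 = (1 - zz 0) * ε := by linear_combination zz 0 * e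
      exact this ▸ Ideal.mul_mem_left _ _ hε
    · have : y' i - zz i.succ = w i ^ M * w i ^ 2 := by simp only [y']; ring
      exact this ▸ Ideal.mul_mem_left _ _ (Ideal.pow_mem_pow (hw i) 2)
  · refine RingHom.Finite.of_comp_finite (f := (rename Fin.succ).toRingHom) ?_
    convert hM using 1
    exact MvPolynomial.ringHom_ext (fun c => by simp) fun i => by simp [π, y']
  · by_contra hne
    have hI : I ≤ q := sup_le ((Ideal.span_singleton_le_iff_mem _).2 hfq)
      (Ideal.span_le.2 (by rintro _ ⟨i, rfl⟩; exact hy i.succ))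
    have hI' : RingHom.ker (Ideal.Quotient.mk I) ≤ q := by rwa [Ideal.mk_ker]
    have : q ∈ S := Finset.mem_erase.2 ⟨hne, Finset.mem_image.2 ⟨q.map (Ideal.Quotient.mk I), by
      simpa using Ideal.map_isPrime_of_surjective Ideal.Quotient.mk_surjective hI', by
      rw [Ideal.comap_map_of_surjective _ Ideal.Quotient.mk_surjective, sup_eq_left]
      exact hI'⟩⟩
    have h3 : δ ∈ q := (biInf_le (fun q => q) this) hδ
    have h4 : zz 0 * δ + ε ∈ q := hy 0
    exact hq.ne_top ((Ideal.eq_top_iff_one _).2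
      (e ▸ add_mem ((q.add_mem_iff_right (q.mul_mem_left _ h3)).1 h4) h3))

variable (k) in
/-- The local ring of affine space at the origin. -/
abbrev OrigRing (n : ℕ) : Type :=
  Localization.AtPrime (kerPt (aeval 0 : MvPolynomial (Fin n) k →ₐ[k] k))

theorem lindel_presentation {B : Type} [CommRing B] [IsDomain B] [Algebra k B] {n : ℕ}
    (z : MvPolynomial (Fin n) k →ₐ[k] B) (hz : z.toRingHom.Etale) (ev : B →ₐ[k] k)
    (R : Type) [CommRing R] [IsLocalRing R] [Algebra B R] [IsLocalization.AtPrime R (kerPt ev)]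
    (f : R) (h0 : f ≠ 0) (hf : f ∈ maximalIdeal R) :
    ∃ (_ : Algebra (OrigRing k n) R) (h : OrigRing k n), Module.FaithfullyFlat (OrigRing k n) R ∧
      Associated (algebraMap _ R h) f ∧ ∀ r : R, ∃ a x, r = algebraMap (OrigRing k n) R a + f * x := by
  have : IsDomain R := IsLocalization.isDomain_of_atPrime R (kerPt ev)
  obtain ⟨f₀, hf₀⟩ : ∃ f₀ : B, Associated (algebraMap B R f₀) f := by
    obtain ⟨⟨b, c⟩, e⟩ := IsLocalization.surj (kerPt ev).primeCompl f
    exact ⟨b, e ▸ associated_mul_unit_left _ _ (IsLocalization.map_units R c)⟩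
  obtain ⟨y, hy1, hy2, hy3⟩ := exists_coords z hz ev f₀
    (fun h => h0 (by rw [h, map_zero] at hf₀; exact (associated_zero_iff_eq_zero f).1 hf₀.symm))
    ((IsLocalization.AtPrime.to_map_mem_maximal_iff R (kerPt ev) f₀).1
      (Ideal.mem_of_dvd _ hf₀.symm.dvd hf))
  let _ : Algebra k R := ((algebraMap B R).comp (algebraMap k B)).toAlgebra
  have : IsScalarTower k B R := .of_algebraMap_eq' rfl
  let ι := IsScalarTower.toAlgHom k B R
  have hy0 : ∀ i, ev (y i) = 0 := fun i => by
    have := Ideal.pow_le_self two_ne_zero (hy1 i)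
    simpa [mem_kerPt] using this
  have h1 : (ι.comp z).toRingHom.FormallyEtale ∧ Algebra.FormallySmooth k R ∧
      Algebra.FiniteType k B := by
    algebraize [z.toRingHom, (ι.comp z).toRingHom]
    have := IsScalarTower.of_algebraMap_eq' z.comp_algebraMap.symm
    have : IsScalarTower (MvPolynomial (Fin n) k) B R := .of_algebraMap_eq' rfl
    have := Algebra.FormallyEtale.of_isLocalization (Rₘ := R) (kerPt ev).primeCompl
    have : Algebra.FormallySmooth k B := .comp k (MvPolynomial (Fin n) k) B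
    exact ⟨Algebra.FormallyEtale.comp (MvPolynomial (Fin n) k) B R, .comp k B R,
      .trans (S := MvPolynomial (Fin n) k) inferInstance inferInstance⟩
  obtain ⟨h1, _, _⟩ := h1
  have h2 : ((ι.comp (aeval y)).toRingHom).FormallyEtale := by
    refine formallyEtale_of_dComb _ (dComb_perturb
      (fun i => ι (z (X i) - algebraMap k B (ev (z (X i))))) _ ?_ fun i => ?_)
    · convert dComb_bijective _ h1 using 2
      simp [dComb]
    · have := Ideal.mem_map_of_mem (algebraMap B R) (hy1 i)
      rw [Ideal.map_pow, IsLocalization.AtPrime.map_eq_maximalIdeal (kerPt ev) R, map_sub] at this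
      simpa [ι] using this
  let P := MvPolynomial (Fin n) k
  let o := kerPt (aeval 0 : P →ₐ[k] k)
  let A := OrigRing k n
  let _ : Algebra P B := (aeval y : P →ₐ[k] B).toRingHom.toAlgebra
  let _ : Algebra P R := (ι.comp (aeval y)).toRingHom.toAlgebra
  have : IsScalarTower P B R := .of_algebraMap_eq' rfl
  have : IsScalarTower k P B := .of_algebraMap_eq' (aeval y : P →ₐ[k] B).comp_algebraMap.symm
  have : Algebra.FiniteType P B := .of_restrictScalars_finiteType k P B
  have : Algebra.FormallyEtale P R := h2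
  have hev : ∀ p : P, ev (algebraMap P B p) = aeval 0 p := fun p =>
    AlgHom.congr_fun (show ev.comp (aeval y) = aeval 0 from by ext i; simp [hy0]) p
  have ho : o = (kerPt ev).comap (algebraMap P B) := by
    ext p; rw [Ideal.mem_comap, mem_kerPt, mem_kerPt, hev]
  have hu : ∀ p : o.primeCompl, IsUnit (algebraMap P R p) := fun p =>
    IsLocalization.map_units R (⟨algebraMap P B p, fun h => p.2 (ho.ge h)⟩ : (kerPt ev).primeCompl)
  let _ : Algebra A R := (IsLocalization.lift hu).toAlgebra
  have : IsScalarTower P A R := .of_algebraMap_eq' (IsLocalization.lift_comp hu).symm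
  have : Module.Flat A R := (Module.flat_iff_of_isLocalization A o.primeCompl R).2
    (flat_of_formallySmooth (B := B) (kerPt ev).primeCompl)
  have : IsLocalHom (algebraMap A R) := by
    refine ((local_hom_TFAE (algebraMap A R)).out 0 2 rfl rfl).2 ?_
    rw [← IsLocalization.AtPrime.map_eq_maximalIdeal o A, Ideal.map_map,
      ← IsScalarTower.algebraMap_eq, IsScalarTower.algebraMap_eq P B R, ← Ideal.map_map, ho,
      ← IsLocalization.AtPrime.map_eq_maximalIdeal (kerPt ev) R]
    exact Ideal.map_mono Ideal.map_comap_le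
  have : Algebra.FormallyUnramified A R := .of_restrictScalars P A R
  have : Algebra.EssFiniteType B R := .of_isLocalization R (kerPt ev).primeCompl
  have : Algebra.EssFiniteType P R := .comp P B R
  have : Algebra.EssFiniteType A R := .of_comp P A R
  have : Module.Finite P (B ⧸ Ideal.span {f₀}) := hy2
  have hs := surj_mod (A := A) (R := R) o (kerPt ev) f₀
    (fun q hq hf hle => hy3 q hq hf fun i => by
      have : algebraMap P B (X i) ∈ q := hle (show X i ∈ o by simp [o, mem_kerPt])
      rwa [show algebraMap P B (X i) = y i from aeval_X y i] at this)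
    Algebra.FormallyUnramified.map_maximalIdeal fun r => by
      obtain ⟨⟨b, c, hc⟩, rfl⟩ := IsLocalization.mk'_surjective (kerPt ev).primeCompl r
      have hc' : ev c ≠ 0 := hc
      refine ⟨algebraMap P A (C (ev b / ev c)), ?_⟩
      rw [← IsScalarTower.algebraMap_apply, IsScalarTower.algebraMap_apply P B R,
        ← Ideal.mul_unit_mem_iff_mem _ (IsLocalization.map_units R (⟨c, hc⟩ : (kerPt ev).primeCompl)),
        sub_mul, IsLocalization.mk'_spec, ← map_mul, ← map_sub,
        IsLocalization.AtPrime.to_map_mem_maximal_iff R (kerPt ev), mem_kerPt, map_sub, map_mul, hev]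
      simp [hc']
  have hs' : ∀ r : R, ∃ a x, r = algebraMap A R a + f * x := fun r => by
    obtain ⟨a, x, e⟩ := hs r
    obtain ⟨u, hu⟩ := hf₀.symm
    exact ⟨a, u * x, by rw [e, ← hu, mul_assoc]⟩
  obtain ⟨h, hh⟩ := exists_principal f h0 hf hs'
  exact ⟨inferInstance, h, .of_flat_of_isLocalHom, hh, hs'⟩

theorem dvd_of_faithfullyFlat {A R : Type} [CommRing A] [CommRing R] [Algebra A R]
    [Module.FaithfullyFlat A R] {a h : A} (H : algebraMap A R h ∣ algebraMap A R a) : h ∣ a := by
  rw [← Ideal.mem_span_singleton, ← Ideal.comap_map_eq_self_of_faithfullyFlat (B := R)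
    (Ideal.span {h}), Ideal.mem_comap, Ideal.map_span, Set.image_singleton,
    Ideal.mem_span_singleton]
  exact H

theorem ufd_local {B : Type} [CommRing B] [IsDomain B] [Algebra k B] {n : ℕ}
    (z : MvPolynomial (Fin n) k →ₐ[k] B) (hz : z.toRingHom.Etale) (ev : B →ₐ[k] k)
    (R : Type) [CommRing R] [IsDomain R] [IsLocalRing R] [Algebra B R]
    [IsLocalization.AtPrime R (kerPt ev)] : UniqueFactorizationMonoid R := by
  rw [UniqueFactorizationMonoid.iff_exists_prime_mem_of_isPrime]
  intro I hI hp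
  obtain ⟨f, hfI, h0⟩ := I.ne_bot_iff.1 hI
  obtain ⟨_, h, _, hh, hs⟩ := lindel_presentation z hz ev R f h0 (le_maximalIdeal hp.ne_top hfI)
  have : UniqueFactorizationMonoid (OrigRing k n) := .of_isLocalization
    (kerPt (aeval 0 : MvPolynomial (Fin n) k →ₐ[k] k)).primeCompl _
  have hh0 : h ≠ 0 := fun e => h0 (by
    rw [e, map_zero] at hh; exact (associated_zero_iff_eq_zero f).1 hh.symm)
  obtain ⟨s, hs1, hs2⟩ := UniqueFactorizationMonoid.exists_prime_factors h hh0
  have : (s.map (algebraMap _ R)).prod ∈ I := by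
    rw [← map_multiset_prod]
    exact Ideal.mem_of_dvd _ ((hs2.map (algebraMap _ R)).trans hh).symm.dvd hfI
  obtain ⟨_, hx, hxI⟩ := (hp.multiset_prod_mem_iff_exists_mem _).1 this
  obtain ⟨p, hp', rfl⟩ := Multiset.mem_map.1 hx
  have hd : algebraMap _ R p ∣ f :=
    (map_dvd _ ((Multiset.dvd_prod hp').trans hs2.dvd)).trans hh.dvd
  refine ⟨_, hxI, fun e => h0 (by rwa [e, zero_dvd_iff] at hd),
    fun hu => hp.ne_top (I.eq_top_of_isUnit_mem hxI hu), fun a b hab => ?_⟩
  obtain ⟨a, x, rfl⟩ := hs a
  obtain ⟨b, y, rfl⟩ := hs b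
  have : p ∣ a * b := dvd_of_faithfullyFlat (R := R) (by
    have e : algebraMap _ R (a * b) = (algebraMap _ R a + f * x) * (algebraMap _ R b + f * y) -
        f * (x * algebraMap _ R b + algebraMap _ R a * y + f * x * y) := by rw [map_mul]; ring
    rw [e]; exact dvd_sub hab (hd.mul_right _))
  exact ((hs1 p hp').dvd_or_dvd this).imp (fun h => dvd_add (map_dvd _ h) (hd.mul_right _))
    fun h => dvd_add (map_dvd _ h) (hd.mul_right _)

attribute [local instance] Polynomial.algebra in
theorem lindel {B : Type} [CommRing B] [IsDomain B] [Algebra k B] {n : ℕ}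
    (z : MvPolynomial (Fin n) k →ₐ[k] B) (hz : z.toRingHom.Etale) (ev : B →ₐ[k] k)
    (R : Type) [CommRing R] [IsDomain R] [IsLocalRing R] [Algebra B R]
    [IsLocalization.AtPrime R (kerPt ev)] : AllFree (Polynomial R) := by
  classical
  intro m e he
  let K := FractionRing R
  have hinj : Function.Injective (algebraMap (Polynomial R) (Polynomial K)) :=
    Polynomial.map_injective _ (IsFractionRing.injective R K)
  obtain ⟨r, Y, Y', h1, h2⟩ := allFree_of_pid (R := Polynomial K) m (e.map (algebraMap _ _))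
    (by rw [← Matrix.map_mul, he])
  have := Polynomial.isLocalization (nonZeroDivisors R) K
  obtain ⟨⟨_, c, hc, rfl⟩, hs⟩ := IsLocalization.exist_integer_multiples_of_finite
    ((nonZeroDivisors R).map Polynomial.C)
    (fun p : Bool × Fin m × Fin r => cond p.1 (Y p.2.1 p.2.2) (Y' p.2.2 p.2.1))
  choose W hW using hs
  let Z : Matrix (Fin m) (Fin r) (Polynomial R) := Matrix.of fun i j => W (true, i, j)
  let Z' : Matrix (Fin r) (Fin m) (Polynomial R) := Matrix.of fun j i => W (false, i, j)
  have hZ : Z.map (algebraMap _ (Polynomial K)) = Polynomial.C c • Y := by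
    ext1 i j; exact hW (true, i, j)
  have hZ' : Z'.map (algebraMap _ (Polynomial K)) = Polynomial.C c • Y' := by
    ext1 j i; exact hW (false, i, j)
  have h3 : Z' * Z = Polynomial.C (c * c) • 1 := Matrix.map_injective hinj (by
    change Matrix.map _ _ = Matrix.map _ _
    rw [Matrix.map_mul, hZ, hZ', Matrix.smul_mul, Matrix.mul_smul, h1, smul_smul]
    ext1 i j
    rw [Matrix.map_apply, Matrix.smul_apply, Matrix.smul_apply, smul_eq_mul, Algebra.smul_def,
      map_mul (algebraMap _ _) (Polynomial.C (c * c)), Polynomial.C_mul, Matrix.one_apply,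
      Matrix.one_apply]
    split_ifs <;> simp)
  have h4 : Z * Z' = Polynomial.C (c * c) • e := Matrix.map_injective hinj (by
    change Matrix.map _ _ = Matrix.map _ _
    rw [Matrix.map_mul, hZ, hZ', Matrix.smul_mul, Matrix.mul_smul, h2, smul_smul]
    ext1 i j
    rw [Matrix.map_apply, Matrix.smul_apply, Matrix.smul_apply, smul_eq_mul, Algebra.smul_def,
      map_mul (algebraMap _ _) (Polynomial.C (c * c)), Polynomial.C_mul, Matrix.map_apply])
  have hc0 : c * c ≠ 0 := mul_ne_zero (nonZeroDivisors.ne_zero hc) (nonZeroDivisors.ne_zero hc)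
  generalize c * c = f at h3 h4 hc0
  by_cases hf : IsUnit f
  · obtain ⟨u, rfl⟩ := hf
    refine ⟨r, Z, Polynomial.C ((u⁻¹ : Rˣ) : R) • Z', ?_, ?_⟩
    · rw [Matrix.smul_mul, h3, smul_smul, ← map_mul, u.inv_mul, map_one, one_smul]
    · rw [Matrix.mul_smul, h4, smul_smul, ← map_mul, u.inv_mul, map_one, one_smul]
  obtain ⟨_, h, _, ⟨u, hu⟩, hs⟩ := lindel_presentation z hz ev R f hc0 hf
  let A := OrigRing k n
  let o := kerPt (aeval 0 : MvPolynomial (Fin n) k →ₐ[k] k)
  have hA : AllFree (Polynomial A) := roitman o.primeCompl o.primeCompl_le_nonZeroDivisors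
    ((quillen_suslin (n + 1) k).of_equiv (finSuccEquiv k n).toRingEquiv) allFree_of_local
  have := flat_poly A R
  have hF : algebraMap (Polynomial A) (Polynomial R) (Polynomial.C h) =
      Polynomial.C (algebraMap A R h) := Polynomial.map_C _
  refine patch hA (Polynomial.C h) ?_ (fun b' => ?_) (fun b x hb => ?_) 1 e he Z
    (Polynomial.C ((u⁻¹ : Rˣ) : R) • Z') ?_ ?_
  · rw [hF, Ne, Polynomial.C_eq_zero]
    exact fun e => hc0 (by rw [← hu, e, zero_mul])
  · induction b' using Polynomial.induction_on' with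
    | add p q hp hq =>
      obtain ⟨b, x, rfl⟩ := hp
      obtain ⟨b', x', rfl⟩ := hq
      exact ⟨b + b', x + x', by rw [map_add]; ring⟩
    | monomial i r =>
      obtain ⟨a, x, rfl⟩ := hs r
      refine ⟨Polynomial.monomial i a, Polynomial.monomial i (u * x), ?_⟩
      rw [hF, Polynomial.C_mul_monomial, ← mul_assoc, hu, map_add]
      exact congrArg (· + _) (Polynomial.map_monomial _).symm
  · rw [Polynomial.C_dvd_iff_dvd_coeff]
    intro i
    refine dvd_of_faithfullyFlat (R := R) ⟨x.coeff i, ?_⟩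
    rw [← Polynomial.coeff_C_mul, ← hF, ← hb]
    exact (Polynomial.coeff_map _ _).symm
  · rw [Matrix.smul_mul, h3, smul_smul, ← map_mul, hF, pow_one, ← hu, mul_comm,
      Units.mul_inv_cancel_right]
  · rw [Matrix.mul_smul, h4, smul_smul, ← map_mul, hF, pow_one, ← hu, mul_comm,
      Units.mul_inv_cancel_right]

end Pool.Agent.MP_e8e0b6_ag
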