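import Pool.Agent.MP_e8e0b6_ag.QS.Idem
import Mathlib.LinearAlgebra.Matrix.Transvection
import Mathlib.RingTheory.Nakayama
import Mathlib.Algebra.Polynomial.Lifts
import Mathlib.RingTheory.Polynomial.Basic
import Mathlib.RingTheory.Localization.FractionRing
import Mathlib.RingTheory.LocalRing.ResidueField.Basic
import Mathlib.Algebra.Polynomial.FieldDivision
import Mathlib.LinearAlgebra.Matrix.NonsingularInverse

/-!
The local Horrocks theorem, by Roberts' argument.
-/

open Matrix Polynomial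

namespace Pool.Agent.MP_e8e0b6_ag

/-- The monic polynomials. -/
def monics (A : Type) [CommRing A] : Submonoid A[X] where
  carrier := {p | p.Monic}
  one_mem' := monic_one
  mul_mem' := Monic.mul

theorem monics_le (A : Type) [CommRing A] : monics A ≤ nonZeroDivisors A[X] := fun _ hp =>
  Monic.mem_nonZeroDivisors hp

theorem single_sum' {ι κ T : Type} [DecidableEq ι] [AddCommMonoid T] (i : ι) (s : Finset κ)
    (f : κ → T) : (Pi.single i (∑ m ∈ s, f m) : ι → T) = ∑ m ∈ s, Pi.single i (f m) :=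
  map_sum (AddMonoidHom.single (fun _ : ι => T) i) f s

section

variable {A : Type} [CommRing A] (T : Type) [CommRing T] [Algebra A[X] T] [Algebra A T]
  [IsScalarTower A A[X] T] [IsLocalization (monics A) T]

variable (A) in
/-- Fractions of non-positive degree. -/
def atInf : Subalgebra A T where
  carrier := {t | ∃ f g : A[X], g.Monic ∧ f.natDegree ≤ g.natDegree ∧
    t * algebraMap _ T g = algebraMap _ T f}
  mul_mem' := by
    rintro a b ⟨f, g, hg, h, e⟩ ⟨f', g', hg', h', e'⟩
    refine ⟨f * f', g * g', hg.mul hg', ?_, ?_⟩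
    · rw [hg.natDegree_mul hg']
      exact natDegree_mul_le.trans (add_le_add h h')
    · rw [map_mul, map_mul, ← e, ← e']; ring
  add_mem' := by
    rintro a b ⟨f, g, hg, h, e⟩ ⟨f', g', hg', h', e'⟩
    refine ⟨f * g' + f' * g, g * g', hg.mul hg', ?_, ?_⟩
    · rw [hg.natDegree_mul hg']
      refine (natDegree_add_le _ _).trans (max_le (natDegree_mul_le.trans ?_)
        (natDegree_mul_le.trans ?_)) <;> omega
    · rw [map_add, map_mul, map_mul, map_mul, ← e, ← e']; ring
  algebraMap_mem' := fun c => ⟨C c, 1, monic_one, by simp, by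
    rw [map_one, mul_one, IsScalarTower.algebraMap_apply A A[X] T]; rfl⟩

theorem exists_poly_add [Nontrivial A] (t : T) :
    ∃ q : A[X], t - algebraMap _ T q ∈ atInf A T := by
  obtain ⟨⟨f, g, hg⟩, e⟩ := IsLocalization.surj (monics A) t
  refine ⟨f /ₘ g, f %ₘ g, g, hg, ?_, ?_⟩
  · exact natDegree_le_natDegree (degree_modByMonic_lt f hg).le
  · have := congrArg (algebraMap _ T) (modByMonic_add_div f g)
    simp only [map_add, map_mul] at this e
    rw [sub_mul, e, ← this]; ring

theorem eq_C_of_atInf {q : A[X]} (h : algebraMap _ T q ∈ atInf A T) : q = C (q.coeff 0) := by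
  obtain ⟨f, g, hg, h, e⟩ := h
  rw [← map_mul] at e
  have e' := IsLocalization.injective T (monics_le A) e
  by_cases hq : q = 0
  · simp [hq]
  have := hg.natDegree_mul' hq
  rw [mul_comm, e'] at this
  exact eq_C_of_natDegree_eq_zero (by omega)

end

section

variable {A : Type} [CommRing A] [IsLocalRing A] (T : Type) [CommRing T] [Algebra A[X] T]
  [IsLocalization (monics A) T]

open IsLocalRing

variable (A) in
/-- Reduction modulo the maximal ideal. -/
noncomputable def redT : T →+* FractionRing (ResidueField A)[X] :=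
  IsLocalization.lift (M := monics A)
    (g := (algebraMap _ (FractionRing (ResidueField A)[X])).comp (mapRingHom (residue A)))
    fun y => (isUnit_iff_ne_zero.2 (by
      simp only [RingHom.comp_apply, coe_mapRingHom, ne_eq, map_eq_zero_iff _
        (IsFractionRing.injective (ResidueField A)[X] _)]
      exact (Monic.map (residue A) y.2).ne_zero))

theorem redT_alg (f : A[X]) :
    redT A T (algebraMap _ T f) = algebraMap _ _ (f.map (residue A)) := by
  simp [redT]

theorem redT_surj (z : FractionRing (ResidueField A)[X]) :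
    ∃ t, redT A T t = z ∧ (z ≠ 0 → IsUnit t) := by
  obtain ⟨f, g, hg, rfl⟩ := IsFractionRing.div_surjective (A := (ResidueField A)[X]) z
  have hg0 : g ≠ 0 := nonZeroDivisors.ne_zero hg
  have key : ∀ p : (ResidueField A)[X], p ≠ 0 → ∃ u : Tˣ, redT A T u = algebraMap _ _ p := by
    intro p hp
    have hs : Function.Surjective (residue A) := residue_surjective
    obtain ⟨q, hq, -, hm⟩ := lifts_and_natDegree_eq_and_monic
      ((mem_lifts _).2 (map_surjective _ hs (p * C p.leadingCoeff⁻¹))) (monic_mul_leadingCoeff_inv hp)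
    obtain ⟨c, hc⟩ := hs p.leadingCoeff
    have hl : p.leadingCoeff ≠ 0 := leadingCoeff_ne_zero.2 hp
    have hcu : IsUnit c := by
      rw [← residue_ne_zero_iff_isUnit, hc]; exact hl
    have : IsUnit (algebraMap _ T (q * C c)) := by
      rw [map_mul]
      exact (IsLocalization.map_units T (⟨q, hm⟩ : monics A)).mul ((isUnit_C.2 hcu).map _)
    refine ⟨this.unit, ?_⟩
    rw [IsUnit.unit_spec, redT_alg, Polynomial.map_mul, hq, map_C, hc, mul_assoc, ← C_mul,
      inv_mul_cancel₀ hl, C_1, mul_one]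
  obtain ⟨u, hu⟩ := key g hg0
  have hu' : redT A T (u⁻¹ : Tˣ) = (algebraMap _ _ g)⁻¹ := by rw [← hu]; simp
  by_cases hf : f = 0
  · exact ⟨0, by simp [hf], by simp [hf]⟩
  · obtain ⟨v, hv⟩ := key f hf
    exact ⟨v * (u⁻¹ : Tˣ), by rw [map_mul, hv, hu', div_eq_mul_inv],
      fun _ => (v.isUnit.mul (u⁻¹).isUnit)⟩

theorem redT_gl {r : ℕ} (G : Matrix (Fin r) (Fin r) (FractionRing (ResidueField A)[X]))
    (hG : G.det ≠ 0) : ∃ H : Matrix (Fin r) (Fin r) T, IsUnit H.det ∧ H.map (redT A T) = G := by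
  refine diagonal_transvection_induction_of_det_ne_zero
    (fun G => ∃ H : Matrix (Fin r) (Fin r) T, IsUnit H.det ∧ H.map (redT A T) = G) G hG ?_ ?_ ?_
  · intro D hD
    choose t ht using fun i => redT_surj T (D i)
    rw [det_diagonal, Finset.prod_ne_zero_iff] at hD
    refine ⟨diagonal t, ?_, ?_⟩
    · rw [det_diagonal]
      exact IsUnit.prod_univ_iff.2 fun i => (ht i).2 (hD i (Finset.mem_univ _))
    · rw [diagonal_map (map_zero _)]; simp only [(ht _).1]
  · rintro ⟨i, j, hij, c⟩
    obtain ⟨t, ht, -⟩ := redT_surj T c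
    refine ⟨transvection i j t, by rw [det_transvection_of_ne _ _ hij]; exact isUnit_one, ?_⟩
    ext a b
    simp only [transvection, TransvectionStruct.toMatrix_mk, map_apply, Matrix.add_apply, map_add,
      Matrix.one_apply, single, of_apply]
    split_ifs <;> simp [ht]
  · rintro _ _ - - ⟨H, h, rfl⟩ ⟨H', h', rfl⟩
    exact ⟨H * H', by rw [det_mul]; exact h.mul h', Matrix.map_mul⟩

variable [Algebra A T] [IsScalarTower A A[X] T]

theorem mem_smul_of_redT {ι : Type} [Fintype ι] [DecidableEq ι] (v : ι → T)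
    (h : ∀ i, redT A T (v i) = 0) : v ∈ maximalIdeal A • (⊤ : Submodule A (ι → T)) := by
  rw [← Finset.univ_sum_single v]
  refine Submodule.sum_mem _ fun i _ => ?_
  obtain ⟨⟨f, g, hg⟩, e⟩ := IsLocalization.surj (monics A) (v i)
  obtain ⟨u, hu⟩ := IsLocalization.map_units T (⟨g, hg⟩ : monics A)
  have e1 : v i = algebraMap _ T f * (u⁻¹ : Tˣ) := by
    simp only at e hu
    rw [← e, ← hu]; simp
  have e2 : f.map (residue A) = 0 := by
    have := congrArg (redT A T) e
    rw [map_mul, h, zero_mul, redT_alg] at this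
    exact (map_eq_zero_iff _ (IsFractionRing.injective _ _)).1 this.symm
  rw [e1, f.as_sum_support, map_sum, Finset.sum_mul, single_sum']
  refine Submodule.sum_mem _ fun m _ => ?_
  have : (Pi.single i (algebraMap A[X] T (monomial m (f.coeff m)) * (u⁻¹ : Tˣ)) : ι → T) =
      f.coeff m • (Pi.single i (algebraMap A[X] T (X ^ m) * (u⁻¹ : Tˣ)) : ι → T) := by
    rw [← Pi.single_smul, ← C_mul_X_pow_eq_monomial, map_mul, Algebra.smul_def,
      IsScalarTower.algebraMap_apply A A[X] T, mul_assoc]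
    rfl
  rw [this]
  refine Submodule.smul_mem_smul ?_ trivial
  rw [← residue_eq_zero_iff, ← coeff_map, e2, coeff_zero]

theorem horrocks_aux {n r : ℕ} (Y : Matrix (Fin n) (Fin r) T) (Y' : Matrix (Fin r) (Fin n) T)
    (hY : Y' * Y = 1) (X₁ : Matrix (Fin n) (Fin r) A[X])
    (hX : Y.map (redT A T) = (X₁.map (algebraMap _ T)).map (redT A T)) :
    ∃ (Z : Matrix (Fin n) (Fin r) A[X]) (B : Matrix (Fin r) (Fin r) T),
      (∀ i j, B i j ∈ atInf A T) ∧ Z.map (mapRingHom (residue A)) = X₁.map (mapRingHom (residue A)) ∧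
      Y' * Z.map (algebraMap _ T) = B := by
  let a := algebraMap A[X] T
  let ℓ : (Fin n → A[X]) →ₗ[A] (Fin r → T) :=
    { toFun := fun v => Y' *ᵥ (a ∘ v)
      map_add' := fun v w => by rw [← mulVec_add]; congr 1; ext; simp
      map_smul' := fun c v => by
        rw [RingHom.id_apply, ← mulVec_smul]; congr 1; ext i
        simp only [Function.comp_apply, Pi.smul_apply, a]
        exact map_smul (IsScalarTower.toAlgHom A A[X] T) c (v i) }
  let Q : Submodule A (Fin r → T) := Submodule.pi Set.univ fun _ => (atInf A T).toSubmodule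
  let N := LinearMap.range ℓ ⊔ Q
  obtain ⟨s, hs⟩ := IsLocalization.exist_integer_multiples_of_finite (monics A)
    (fun p : Fin n × Fin r => Y p.1 p.2)
  choose Y₀ hY₀ using hs
  let G : Submodule A (Fin r → T) := Submodule.span A
    (Set.range fun p : Fin s.1.natDegree × Fin r => Pi.single p.2 (a (X ^ (p.1 : ℕ))))
  have hG : G.FG := Submodule.fg_span (Set.finite_range _)
  have hD : ∀ (v : Fin r → A[X]), a ∘ v - ℓ (X₁ *ᵥ v) ∈
      maximalIdeal A • (⊤ : Submodule A (Fin r → T)) := by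
    intro v
    refine mem_smul_of_redT T _ fun i => ?_
    have : a ∘ v - ℓ (X₁ *ᵥ v) = Y' *ᵥ ((Y - X₁.map a) *ᵥ (a ∘ v)) := by
      rw [sub_mulVec, mulVec_sub, mulVec_mulVec, hY, one_mulVec]
      congr 1
      change Y' *ᵥ _ = _
      congr 1
      ext j
      exact RingHom.map_mulVec a X₁ v j
    rw [this, RingHom.map_mulVec]
    have h0 : redT A T ∘ ((Y - X₁.map a) *ᵥ (a ∘ v)) = 0 := by
      ext j
      rw [Function.comp_apply, RingHom.map_mulVec, Matrix.map_sub _ (map_sub _), hX]
      simp [a]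
    rw [h0]; simp
  have hNG : N ⊔ G = ⊤ := by
    rw [eq_top_iff]
    rintro v -
    choose q hq using fun i => exists_poly_add (A := A) T (v i)
    have h1 : v - a ∘ q ∈ Q := fun i _ => hq i
    have h2 : a ∘ (fun i => s.1 * (q i /ₘ s.1)) ∈ LinearMap.range ℓ := by
      refine ⟨(Matrix.of fun i j => Y₀ (i, j)) *ᵥ fun i => q i /ₘ s.1, ?_⟩
      change Y' *ᵥ _ = _
      have : a ∘ ((Matrix.of fun i j => Y₀ (i, j)) *ᵥ fun i => q i /ₘ s.1) =
          Y *ᵥ (a ∘ fun i => s.1 * (q i /ₘ s.1)) := by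
        ext j
        simp only [Function.comp_apply, mulVec, dotProduct, map_sum, map_mul, of_apply, a, hY₀,
          Algebra.smul_def]
        exact Finset.sum_congr rfl fun _ _ => by ring
      rw [this, mulVec_mulVec, hY, one_mulVec]
    have h3 : a ∘ (fun i => q i %ₘ s.1) ∈ G := by
      rw [← Finset.univ_sum_single (a ∘ _)]
      refine Submodule.sum_mem _ fun i _ => ?_
      rw [Function.comp_apply, (q i %ₘ s.1).as_sum_support, map_sum, single_sum']
      refine Submodule.sum_mem _ fun m hm => ?_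
      have hm' : m < s.1.natDegree := by
        have := (le_degree_of_mem_supp m hm).trans_lt (degree_modByMonic_lt (q i) s.2)
        rw [degree_eq_natDegree (Monic.ne_zero s.2)] at this
        exact_mod_cast this
      have : (Pi.single i (a (monomial m ((q i %ₘ s.1).coeff m))) : Fin r → T) =
          (q i %ₘ s.1).coeff m • (Pi.single i (a (X ^ m)) : Fin r → T) := by
        rw [← Pi.single_smul, ← C_mul_X_pow_eq_monomial, map_mul, Algebra.smul_def,
          IsScalarTower.algebraMap_apply A A[X] T]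
        rfl
      rw [this]
      exact Submodule.smul_mem _ _ (Submodule.subset_span ⟨(⟨m, hm'⟩, i), rfl⟩)
    have : v = (a ∘ (fun i => s.1 * (q i /ₘ s.1)) + (v - a ∘ q)) + a ∘ fun i => q i %ₘ s.1 := by
      ext i
      have := congrArg a (modByMonic_add_div (q i) s.1)
      simp only [map_add] at this
      simp only [Pi.add_apply, Function.comp_apply, Pi.sub_apply, ← this]
      ring
    rw [this]
    exact Submodule.add_mem_sup (Submodule.add_mem_sup h2 h1) h3
  have hN : N = ⊤ := by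
    rw [← hNG, eq_comm, sup_eq_left]
    refine Submodule.le_of_le_smul_of_le_jacobson_bot hG
      (IsLocalRing.maximalIdeal_le_jacobson ⊥) ?_
    rw [Submodule.span_le]
    rintro _ ⟨⟨m, i⟩, rfl⟩
    have h1 := hD (Pi.single i (X ^ (m : ℕ)))
    rw [← hNG, Submodule.smul_sup] at h1
    have h2 : (Pi.single i (a (X ^ (m : ℕ))) : Fin r → T) = a ∘ Pi.single i (X ^ (m : ℕ)) := by
      ext j
      exact (Pi.apply_single (fun _ => a) (fun _ => map_zero a) i _ j).symm
    have h3 := (sup_le_sup_right (Submodule.smul_le_right (I := maximalIdeal A) (N := N)) _) h1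
    have h4 : ℓ (X₁ *ᵥ Pi.single i (X ^ (m : ℕ))) ∈ N ⊔ maximalIdeal A • G :=
      Submodule.mem_sup_left (Submodule.mem_sup_left ⟨_, rfl⟩)
    have h5 := Submodule.add_mem _ h3 h4
    rw [sub_add_cancel, ← h2] at h5
    exact h5
  have key : ∀ j : Fin r, ∃ p : Fin n → A[X], (∀ i, (p i).map (residue A) = 0) ∧
      ℓ (X₁ *ᵥ Pi.single j 1 + p) ∈ Q := by
    intro j
    have h1 := hD (Pi.single j 1)
    rw [← hN, Submodule.smul_sup, Submodule.mem_sup] at h1
    obtain ⟨y, hy, z, hz, e⟩ := h1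
    have hy' : ∃ p : Fin n → A[X], (∀ i, (p i).map (residue A) = 0) ∧ ℓ p = y := by
      refine Submodule.smul_induction_on hy ?_ ?_
      · rintro c hc _ ⟨p, rfl⟩
        refine ⟨c • p, fun i => ?_, map_smul _ _ _⟩
        rw [Pi.smul_apply, Polynomial.map_smul, (residue_eq_zero_iff c).2 hc, zero_smul]
      · rintro _ _ ⟨p, hp, rfl⟩ ⟨p', hp', rfl⟩
        exact ⟨p + p', fun i => by rw [Pi.add_apply, Polynomial.map_add, hp, hp', add_zero],
          map_add _ _ _⟩
    obtain ⟨p, hp, rfl⟩ := hy'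
    refine ⟨p, hp, ?_⟩
    have : ℓ (X₁ *ᵥ Pi.single j 1 + p) = a ∘ Pi.single j 1 - z := by
      rw [map_add, eq_sub_iff_add_eq, add_assoc, e]; abel
    rw [this]
    refine Submodule.sub_mem _ (fun i _ => ?_) (Submodule.smul_le_right hz)
    rw [Function.comp_apply, Pi.single_apply]
    split_ifs
    · rw [map_one]; exact (atInf A T).one_mem
    · rw [map_zero]; exact (atInf A T).zero_mem
  choose p hp using key
  refine ⟨Matrix.of fun i j => X₁ i j + p j i, _, fun i j => ?_, ?_, rfl⟩
  · have := (hp j).2 i trivial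
    have e : (Y' * (of fun i j => X₁ i j + p j i).map a) i j = ℓ (X₁ *ᵥ Pi.single j 1 + p j) i := by
      change _ = (Y' *ᵥ _) i
      simp [Matrix.mul_apply, mulVec, dotProduct]
    rw [e]; exact this
  · ext1 i j
    simp [(hp j).1 i]

theorem horrocks {n : ℕ} (e : Matrix (Fin n) (Fin n) A[X]) (he : e * e = e)
    (h : RF (e.map (algebraMap _ T))) : RF e := by
  obtain ⟨r, Y, Y', h1, h2⟩ := h
  let a := algebraMap A[X] T
  let ρ := mapRingHom (residue A)
  let b := algebraMap (ResidueField A)[X] (FractionRing (ResidueField A)[X])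
  let π := redT A T
  have hπ : ∀ {m m' : ℕ} (M : Matrix (Fin m) (Fin m') A[X]), (M.map a).map π = (M.map ρ).map b :=
    fun M => by ext i j; exact redT_alg T _
  obtain ⟨r', X₀, X₀', h3, h4⟩ := allFree_of_pid (R := (ResidueField A)[X]) n (e.map ρ)
    (by rw [← Matrix.map_mul, he])
  have h1' : Y'.map π * Y.map π = 1 := by rw [← Matrix.map_mul, h1]; simp
  have h3' : X₀'.map b * X₀.map b = 1 := by rw [← Matrix.map_mul, h3]; simp
  have h5 : Y.map π * Y'.map π = X₀.map b * X₀'.map b := by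
    rw [← Matrix.map_mul, ← Matrix.map_mul, h2, h4, hπ]
  obtain rfl : r = r' := rank_eq_of_frames h1' h3' h5
  have h6 : (X₀'.map b * Y.map π) * (Y'.map π * X₀.map b) = 1 := by
    rw [Matrix.mul_assoc, ← Matrix.mul_assoc (Y.map π), h5, Matrix.mul_assoc, h3', Matrix.mul_one,
      h3']
  obtain ⟨H, hH, hH'⟩ := redT_gl T (Y'.map π * X₀.map b) (isUnit_det_of_left_inverse h6).ne_zero
  have h7 : (H⁻¹ * Y') * (Y * H) = 1 := by
    rw [Matrix.mul_assoc, ← Matrix.mul_assoc Y', h1, Matrix.one_mul, nonsing_inv_mul _ hH]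
  have h8 : (Y * H) * (H⁻¹ * Y') = e.map a := by
    rw [Matrix.mul_assoc, ← Matrix.mul_assoc H, mul_nonsing_inv _ hH, Matrix.one_mul, h2]
  have h9 : (Y * H).map π = X₀.map b := by
    rw [Matrix.map_mul, hH', ← Matrix.mul_assoc, h5, Matrix.mul_assoc, h3', Matrix.mul_one]
  have h10 : (H⁻¹ * Y').map π = X₀'.map b := by
    have := congrArg (fun M => X₀'.map b * M.map π) h8
    rwa [Matrix.map_mul, h9, hπ, ← h4, Matrix.map_mul (L := X₀), ← Matrix.mul_assoc,
      ← Matrix.mul_assoc, h3', Matrix.one_mul, Matrix.one_mul] at this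
  generalize H⁻¹ * Y' = U' at h7 h8 h10
  generalize Y * H = U at h7 h8 h9
  have hs : Function.Surjective ρ := map_surjective _ residue_surjective
  choose X₁ hX₁ using fun i j => hs (X₀ i j)
  choose X₁' hX₁' using fun i j => hs (X₀' i j)
  have hX₁m : (Matrix.of X₁).map ρ = X₀ := by ext1 i j; exact hX₁ i j
  have hX₁m' : (Matrix.of X₁').map ρ = X₀' := by ext1 i j; exact hX₁' i j
  obtain ⟨Z, B, hB, hZ, hZB⟩ := horrocks_aux T U U' h7 (Matrix.of X₁) (by rw [h9, hπ, hX₁m])
  obtain ⟨Z', B', hB', hZ', hZB'⟩ := horrocks_aux T U'ᵀ Uᵀ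
    (by rw [← transpose_mul, h7, transpose_one]) (Matrix.of X₁')ᵀ
    (by rw [hπ, transpose_map, transpose_map, transpose_map, h10, hX₁m'])
  replace hZB' : Z'ᵀ.map a * U = B'ᵀ := by rw [← hZB', transpose_mul, transpose_map]; rfl
  replace hZ' : Z'ᵀ.map ρ = X₀' := by
    rw [transpose_map, hZ', transpose_map, transpose_transpose, hX₁m']
  rw [hX₁m] at hZ
  have hM : (Z'ᵀ * e * Z).map a = B'ᵀ * B := by
    rw [Matrix.map_mul, Matrix.map_mul, ← h8, ← hZB, ← hZB']
    simp only [Matrix.mul_assoc]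
    rfl
  have hM' : (Z'ᵀ * e * Z).map ρ = 1 := by
    rw [Matrix.map_mul, Matrix.map_mul, hZ, hZ', ← h4, ← Matrix.mul_assoc, h3, Matrix.one_mul, h3]
  have hd : IsUnit (Z'ᵀ * e * Z).det := by
    have m1 : a (Z'ᵀ * e * Z).det ∈ atInf A T := by
      rw [RingHom.map_det, RingHom.mapMatrix_apply, hM, det_mul, det_transpose]
      refine mul_mem ?_ ?_ <;> rw [det_apply] <;>
        refine sum_mem fun σ _ => ?_ <;> rw [Units.smul_def] <;>
        refine zsmul_mem (prod_mem fun i _ => ?_) _
      exacts [hB' _ _, hB _ _]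
    have m2 : ρ (Z'ᵀ * e * Z).det = 1 := by
      rw [RingHom.map_det, RingHom.mapMatrix_apply, hM', det_one]
    rw [eq_C_of_atInf T m1] at m2 ⊢
    rw [isUnit_C, ← residue_ne_zero_iff_isUnit]
    intro h0
    simp [ρ, h0] at m2
  have hd' : IsUnit (B'ᵀ * B).det := by
    rw [← hM, ← RingHom.mapMatrix_apply, ← RingHom.map_det]; exact hd.map a
  rw [det_mul, IsUnit.mul_iff] at hd'
  refine ⟨r, e * Z, (Z'ᵀ * e * Z)⁻¹ * (Z'ᵀ * e), ?_, ?_⟩
  · rw [Matrix.mul_assoc, ← Matrix.mul_assoc (Z'ᵀ * e), Matrix.mul_assoc Z'ᵀ e e, he,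
      nonsing_inv_mul _ hd]
  · have hi : ((Z'ᵀ * e * Z)⁻¹).map a = B⁻¹ * B'ᵀ⁻¹ := by
      rw [← Matrix.mul_inv_rev, ← hM]
      refine (inv_eq_left_inv ?_).symm
      rw [← Matrix.map_mul, nonsing_inv_mul _ hd]; simp
    refine Matrix.map_injective (IsLocalization.injective T (monics_le A)) ?_
    change Matrix.map _ a = e.map a
    rw [Matrix.map_mul, Matrix.map_mul, Matrix.map_mul, Matrix.map_mul, hi, ← h8,
      Matrix.mul_assoc U, ← Matrix.mul_assoc (Z'ᵀ.map a), hZB']
    rw [show U' * Z.map a = B from hZB]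
    simp only [Matrix.mul_assoc]
    rw [← Matrix.mul_assoc B'ᵀ⁻¹, nonsing_inv_mul _ hd'.1, Matrix.one_mul,
      ← Matrix.mul_assoc B, mul_nonsing_inv _ hd'.2, Matrix.one_mul]

end

end Pool.Agent.MP_e8e0b6_ag
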