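import Mathlib.RingTheory.Finiteness.Projective
import Mathlib.LinearAlgebra.FreeModule.PID
import Mathlib.LinearAlgebra.Matrix.ToLin
import Mathlib.LinearAlgebra.Matrix.InvariantBasisNumber
import Mathlib.RingTheory.LocalRing.Module
import Mathlib.LinearAlgebra.FreeModule.StrongRankCondition

/-!
Idempotent matrices with free image.
-/

open Matrix

namespace Pool.Agent.MP_e8e0b6_ag

/-- The image of the idempotent matrix `e` is free. -/
def RF {R : Type} [CommRing R] {n : ℕ} (e : Matrix (Fin n) (Fin n) R) : Prop :=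
  ∃ (r : ℕ) (Y : Matrix (Fin n) (Fin r) R) (Y' : Matrix (Fin r) (Fin n) R), Y' * Y = 1 ∧ Y * Y' = e

/-- Finite projective modules are free. -/
def AllFree (R : Type) [CommRing R] : Prop :=
  ∀ (n : ℕ) (e : Matrix (Fin n) (Fin n) R), e * e = e → RF e

/-- Conjugate matrices. -/
def Conj {R : Type} [CommRing R] {n : ℕ} (e e' : Matrix (Fin n) (Fin n) R) : Prop :=
  ∃ G G' : Matrix (Fin n) (Fin n) R, G * G' = 1 ∧ G * e = e' * G

variable {R D : Type} [CommRing R] [CommRing D] {n : ℕ}

theorem RF.map {e : Matrix (Fin n) (Fin n) R} (h : RF e) (φ : R →+* D) : RF (e.map φ) := by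
  obtain ⟨r, Y, Y', h1, h2⟩ := h
  refine ⟨r, Y.map φ, Y'.map φ, ?_, ?_⟩
  · rw [← Matrix.map_mul, h1]; simp
  · rw [← Matrix.map_mul, h2]

theorem Conj.refl (e : Matrix (Fin n) (Fin n) R) : Conj e e := ⟨1, 1, by simp, by simp⟩

theorem Conj.symm {e e' : Matrix (Fin n) (Fin n) R} (h : Conj e e') : Conj e' e := by
  obtain ⟨G, G', h1, h2⟩ := h
  have h3 : G' * G = 1 := mul_eq_one_comm.1 h1
  refine ⟨G', G, h3, ?_⟩
  calc G' * e' = G' * (e' * G) * G' := by rw [mul_assoc, mul_assoc, h1, mul_one]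
    _ = e * G' := by rw [← h2, ← mul_assoc, h3, one_mul]

theorem Conj.trans {e e' e'' : Matrix (Fin n) (Fin n) R} (h : Conj e e') (h' : Conj e' e'') :
    Conj e e'' := by
  obtain ⟨G, G', h1, h2⟩ := h
  obtain ⟨H, H', h3, h4⟩ := h'
  refine ⟨H * G, G' * H', ?_, ?_⟩
  · rw [mul_assoc, ← mul_assoc G, h1, one_mul, h3]
  · rw [mul_assoc, h2, ← mul_assoc, h4, mul_assoc]

theorem Conj.map {e e' : Matrix (Fin n) (Fin n) R} (h : Conj e e') (φ : R →+* D) :
    Conj (e.map φ) (e'.map φ) := by
  obtain ⟨G, G', h1, h2⟩ := h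
  refine ⟨G.map φ, G'.map φ, ?_, ?_⟩
  · rw [← Matrix.map_mul, h1]; simp
  · rw [← Matrix.map_mul, h2, Matrix.map_mul]

theorem RF.of_conj {e e' : Matrix (Fin n) (Fin n) R} (h : RF e) (hc : Conj e e') : RF e' := by
  obtain ⟨r, Y, Y', h1, h2⟩ := h
  obtain ⟨G, G', h3, h4⟩ := hc
  have h5 : G' * G = 1 := mul_eq_one_comm.1 h3
  refine ⟨r, G * Y, Y' * G', ?_, ?_⟩
  · rw [Matrix.mul_assoc, ← Matrix.mul_assoc G', h5, Matrix.one_mul, h1]
  · rw [Matrix.mul_assoc, ← Matrix.mul_assoc Y, h2, ← mul_assoc, h4, mul_assoc, h3, mul_one]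

theorem RF.of_free [Nontrivial R] {e : Matrix (Fin n) (Fin n) R} (he : e * e = e)
    (h : Module.Free R (LinearMap.range (toLin' e))) : RF e := by
  have : Module.Finite R (LinearMap.range (toLin' e)) := Module.Finite.range _
  let b := Module.finBasis R (LinearMap.range (toLin' e))
  let f := (LinearMap.range (toLin' e)).subtype ∘ₗ b.equivFun.symm.toLinearMap
  let g := b.equivFun.toLinearMap ∘ₗ (toLin' e).rangeRestrict
  refine ⟨_, LinearMap.toMatrix' f, LinearMap.toMatrix' g, ?_, ?_⟩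
  · rw [← LinearMap.toMatrix'_comp, ← LinearMap.toMatrix'_id]
    congr 1
    refine LinearMap.ext fun v => ?_
    have : (toLin' e).rangeRestrict (b.equivFun.symm v).1 = b.equivFun.symm v := by
      obtain ⟨w, hw⟩ := (b.equivFun.symm v).2
      refine Subtype.ext ?_
      change toLin' e _ = _
      rw [← hw, ← toLin'_mul_apply, he]
    simp only [f, g, LinearMap.comp_apply, Submodule.subtype_apply, LinearEquiv.coe_coe, this,
      LinearEquiv.apply_symm_apply, LinearMap.id_apply]
  · rw [← LinearMap.toMatrix'_comp]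
    refine Eq.trans ?_ (LinearMap.toMatrix'_toLin' e)
    congr 1
    refine LinearMap.ext fun v => ?_
    simp [f, g]

theorem AllFree.free (h : AllFree R) (M : Type) [AddCommGroup M] [Module R M] [Module.Finite R M]
    [Module.Projective R M] : Module.Free R M := by
  obtain ⟨n, f, g, -, -, hfg⟩ := Module.Finite.exists_comp_eq_id_of_projective R M
  have hfg' : ∀ x, f (g x) = x := fun x => LinearMap.congr_fun hfg x
  obtain ⟨r, Y, Y', h1, h2⟩ := h n (LinearMap.toMatrix' (g ∘ₗ f)) (by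
    rw [← LinearMap.toMatrix'_comp]
    congr 1
    exact LinearMap.ext fun v => by simp [hfg'])
  have h3 : ∀ v, toLin' Y (toLin' Y' v) = g (f v) := fun v => by
    rw [← toLin'_mul_apply, h2, toLin'_toMatrix']; rfl
  have h4 : ∀ v, toLin' Y' (toLin' Y v) = v := fun v => by
    rw [← toLin'_mul_apply, h1]; simp
  refine Module.Free.of_equiv (R := R) (M := Fin r → R)
    (LinearEquiv.ofLinearMap (f ∘ₗ toLin' Y) (toLin' Y' ∘ₗ g) ?_ ?_)
  · exact LinearMap.ext fun v => by simp only [LinearMap.comp_apply, h3, hfg', LinearMap.id_apply]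
  · exact LinearMap.ext fun v => by
      simp only [LinearMap.comp_apply, ← h3, h4, LinearMap.id_apply]

theorem projective_range {e : Matrix (Fin n) (Fin n) R} (he : e * e = e) :
    Module.Projective R (LinearMap.range (toLin' e)) := by
  refine Module.Projective.of_split (LinearMap.range (toLin' e)).subtype (toLin' e).rangeRestrict ?_
  refine LinearMap.ext fun v => Subtype.ext ?_
  obtain ⟨w, hw⟩ := v.2
  change toLin' e v.1 = v.1
  rw [← hw, ← toLin'_mul_apply, he]

theorem allFree_of_pid [IsDomain R] [IsPrincipalIdealRing R] : AllFree R := fun _ _ he =>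
  RF.of_free he inferInstance

theorem allFree_of_local [IsLocalRing R] : AllFree R := fun _ e he => by
  have := projective_range he
  have : Module.Finite R (LinearMap.range (toLin' e)) := Module.Finite.range _
  exact RF.of_free he Module.free_of_flat_of_isLocalRing

theorem AllFree.of_equiv (h : AllFree R) (φ : R ≃+* D) : AllFree D := fun n e he => by
  have := (h n (e.map φ.symm.toRingHom) (by rw [← Matrix.map_mul, he])).map φ.toRingHom
  rwa [Matrix.map_map, show (φ.toRingHom ∘ φ.symm.toRingHom) = id from funext fun x => by simp,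
    Matrix.map_id] at this

/-- Two idempotents with free images of the same rank and free kernels of the same rank are
conjugate. -/
theorem conj_of_frames {r s : ℕ} {e e' : Matrix (Fin n) (Fin n) R}
    {Y Z : Matrix (Fin n) (Fin r) R} {Y' Z' : Matrix (Fin r) (Fin n) R}
    {W V : Matrix (Fin n) (Fin s) R} {W' V' : Matrix (Fin s) (Fin n) R}
    (hY : Y' * Y = 1) (hY' : Y * Y' = e) (hW : W' * W = 1) (hW' : W * W' = 1 - e)
    (hZ : Z' * Z = 1) (hZ' : Z * Z' = e') (hV : V' * V = 1) (hV' : V * V' = 1 - e') :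
    Conj e e' := by
  have key : ∀ {e : Matrix (Fin n) (Fin n) R} {Y : Matrix (Fin n) (Fin r) R}
      {Y' : Matrix (Fin r) (Fin n) R} {W : Matrix (Fin n) (Fin s) R}
      {W' : Matrix (Fin s) (Fin n) R}, Y' * Y = 1 → Y * Y' = e → W' * W = 1 → W * W' = 1 - e →
      Y' * W = 0 ∧ W' * Y = 0 := by
    intro e Y Y' W W' a b c d
    constructor
    · calc Y' * W = Y' * (W * W') * W := by
            rw [Matrix.mul_assoc, Matrix.mul_assoc, c, Matrix.mul_one]
        _ = 0 := by
            rw [d, ← b, Matrix.mul_sub, ← Matrix.mul_assoc, a]; simp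
    · calc W' * Y = W' * (W * W') * Y := by rw [← Matrix.mul_assoc, c, Matrix.one_mul]
        _ = 0 := by
            rw [d, ← b, Matrix.mul_assoc, Matrix.sub_mul, Matrix.mul_assoc, a]; simp
  obtain ⟨k1, k2⟩ := key hY hY' hW hW'
  obtain ⟨k3, k4⟩ := key hZ hZ' hV hV'
  refine ⟨Z * Y' + V * W', Y * Z' + W * V', ?_, ?_⟩
  · simp only [Matrix.add_mul, Matrix.mul_add, Matrix.mul_assoc, ← Matrix.mul_assoc Y',
      ← Matrix.mul_assoc W', hY, hW, k1, k2, Matrix.one_mul, Matrix.zero_mul, Matrix.mul_zero,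
      hZ', hV']
    simp
  · rw [← hY', ← hZ']
    simp only [Matrix.add_mul, Matrix.mul_add, Matrix.mul_assoc, ← Matrix.mul_assoc Y',
      ← Matrix.mul_assoc W', ← Matrix.mul_assoc Z', hY, hZ, k2, k3, Matrix.one_mul,
      Matrix.zero_mul, Matrix.mul_zero]

theorem rank_eq_of_frames [Nontrivial R] {r s : ℕ} {Y : Matrix (Fin n) (Fin r) R}
    {Y' : Matrix (Fin r) (Fin n) R} {Z : Matrix (Fin n) (Fin s) R} {Z' : Matrix (Fin s) (Fin n) R}
    (hY : Y' * Y = 1) (hZ : Z' * Z = 1) (h : Y * Y' = Z * Z') : r = s := by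
  have := Matrix.square_of_invertible (Y' * Z) (Z' * Y) (by
    rw [Matrix.mul_assoc, ← Matrix.mul_assoc Z, ← h, Matrix.mul_assoc, hY, Matrix.mul_one, hY]) (by
    rw [Matrix.mul_assoc, ← Matrix.mul_assoc Y, h, Matrix.mul_assoc, hZ, Matrix.mul_one, hZ])
  simpa using this

end Pool.Agent.MP_e8e0b6_ag
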