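import Pool.Agent.MP_e8e0b6_ag.QS.Patch

/-!
Tools for Lindel's presentation of a smooth local ring.
-/

open MvPolynomial TensorProduct KaehlerDifferential

namespace Pool.Agent.MP_e8e0b6_ag

variable {k : Type} [Field k]

theorem finite_of_pow_add {D : Type} [CommRing D] [Algebra k D] {m : ℕ} (w z : Fin m → D)
    (h : (aeval w : MvPolynomial (Fin m) k →ₐ[k] D).toRingHom.Finite) :
    ∃ M, (aeval (fun i => w i ^ (M + 2) + z i) : MvPolynomial (Fin m) k →ₐ[k] D).toRingHom.Finite := by
  classical
  obtain ⟨s, g, hg⟩ : ∃ (s : ℕ) (g : Fin s → D), ∀ x, ∃ p : Fin s → MvPolynomial (Fin m) k,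
      ∑ l, aeval w (p l) * g l = x := by
    let := (aeval w : MvPolynomial (Fin m) k →ₐ[k] D).toRingHom.toAlgebra
    have : Module.Finite (MvPolynomial (Fin m) k) D := h
    obtain ⟨s, g, hg⟩ := Module.Finite.exists_fin (R := MvPolynomial (Fin m) k) (M := D)
    exact ⟨s, g, fun x => (Submodule.mem_span_range_iff_exists_fun _).1 (hg ▸ Submodule.mem_top)⟩
  choose p hp using fun i j => hg (z i * g j)
  let M := Finset.univ.sup fun q : Fin m × Fin s × Fin s => (p q.1 q.2.1 q.2.2).totalDegree
  refine ⟨M, ?_⟩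
  set φ := (aeval (fun i => w i ^ (M + 2) + z i) : MvPolynomial (Fin m) k →ₐ[k] D)
  let := φ.toRingHom.toAlgebra
  let β : Fin m →₀ ℕ := Finsupp.equivFunOnFinite.symm fun _ => M + 2
  let T : Submodule (MvPolynomial (Fin m) k) D := Submodule.span _
    ((fun q : (Fin m →₀ ℕ) × Fin s => aeval w (monomial q.1 (1 : k)) * g q.2) ''
      (Set.Iic β ×ˢ Set.univ))
  have hT : T.FG := Submodule.fg_span (((Set.finite_Iic β).prod Set.finite_univ).image _)
  have scal : ∀ (α : Fin m →₀ ℕ) (c : k) (j : Fin s), aeval w (monomial α (1 : k)) * g j ∈ T →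
      aeval w (monomial α c) * g j ∈ T := fun α c j h => by
    have := T.smul_mem (C c) h
    rwa [Algebra.smul_def, show algebraMap _ D (C c) = aeval w (C c) from by
      change φ _ = _; simp, ← mul_assoc, ← map_mul, C_mul_monomial, mul_one] at this
  have key : ∀ (N : ℕ) (α : Fin m →₀ ℕ), α.degree = N → ∀ j,
      aeval w (monomial α (1 : k)) * g j ∈ T := by
    intro N
    induction N using Nat.strong_induction_on with
    | _ N ih =>
      intro α hα j
      by_cases hle : α ≤ β
      · exact Submodule.subset_span ⟨(α, j), ⟨hle, trivial⟩, rfl⟩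
      obtain ⟨i, hi⟩ : ∃ i, M + 2 < α i := by
        by_contra! h; exact hle h
      obtain ⟨γ, rfl⟩ : ∃ γ, α = γ + Finsupp.single i (M + 2) :=
        ⟨α - Finsupp.single i (M + 2), (tsub_add_cancel_of_le
          (Finsupp.single_le_iff.2 hi.le)).symm⟩
      rw [map_add, Finsupp.degree_single] at hα
      have e : aeval w (monomial (γ + Finsupp.single i (M + 2)) (1 : k)) * g j =
          (X i : MvPolynomial (Fin m) k) • (aeval w (monomial γ (1 : k)) * g j) -
            ∑ l, aeval w (monomial γ (1 : k) * p i j l) * g l := by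
        have e1 : algebraMap (MvPolynomial (Fin m) k) D (X i) = w i ^ (M + 2) + z i := by
          change φ _ = _; simp [φ]
        simp only [map_mul, mul_assoc, ← Finset.mul_sum, hp]
        rw [monomial_add_single, Algebra.smul_def, e1, map_mul, map_pow, aeval_X]
        ring
      rw [e]
      refine sub_mem (T.smul_mem _ (ih _ (by omega) γ rfl j)) (sum_mem fun l _ => ?_)
      rw [(p i j l).as_sum, Finset.mul_sum, map_sum, Finset.sum_mul]
      refine sum_mem fun δ hδ => ?_
      rw [monomial_mul]
      refine scal _ _ _ (ih _ ?_ _ rfl l)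
      have h1 : δ.degree ≤ (p i j l).totalDegree := le_totalDegree hδ
      have h2 : (p i j l).totalDegree ≤ M := Finset.le_sup
        (f := fun q : Fin m × Fin s × Fin s => (p q.1 q.2.1 q.2.2).totalDegree)
        (Finset.mem_univ (i, j, l))
      rw [map_add]; omega
  refine ⟨?_⟩
  suffices T = ⊤ from this ▸ hT
  rw [eq_top_iff]
  rintro x -
  obtain ⟨q, rfl⟩ := hg x
  refine sum_mem fun l _ => ?_
  rw [(q l).as_sum, map_sum, Finset.sum_mul]
  exact sum_mem fun δ _ => scal _ _ _ (key _ _ rfl l)

theorem krull_le_of_quasiFinite (R S : Type) [CommRing R] [CommRing S] [Algebra R S]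
    [Algebra.QuasiFinite R S] : ringKrullDim S ≤ ringKrullDim R :=
  Order.krullDim_le_of_strictMono (PrimeSpectrum.comap (algebraMap R S)) fun _ _ h =>
    lt_of_le_of_ne (Ideal.comap_mono h.le) fun e => h.ne (PrimeSpectrum.ext
      (Algebra.QuasiFinite.eq_of_le_of_under_eq (R := R) _ _ h.le (congrArg (·.asIdeal) e)))

theorem krull_le_of_integral (R S : Type) [CommRing R] [CommRing S] [Algebra R S]
    [Algebra.IsIntegral R S] [FaithfulSMul R S] : ringKrullDim R ≤ ringKrullDim S := by
  refine iSup_le fun l => ?_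
  obtain ⟨⟨P, hP, h⟩⟩ := Ideal.nonempty_primesOver (S := S) l.head.asIdeal
  obtain ⟨L, hL, -⟩ := Ideal.exists_ltSeries_of_hasGoingUp l P
  rw [← hL]
  exact le_iSup (fun L : LTSeries (PrimeSpectrum S) => (L.length : WithBot ℕ∞)) L

theorem noether_lt {B : Type} [CommRing B] [IsDomain B] [Algebra k B] {n d : ℕ}
    (z : MvPolynomial (Fin n) k →ₐ[k] B) (hz : z.toRingHom.Etale) (f : B) (hf : f ≠ 0)
    (g : MvPolynomial (Fin d) k →ₐ[k] B ⧸ Ideal.span {f}) (hg : Function.Injective g)
    (hg' : g.toRingHom.Finite) : d < n := by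
  have h1 : ringKrullDim B ≤ n := by
    algebraize [z.toRingHom]
    simpa [MvPolynomial.ringKrullDim_of_isNoetherianRing, ringKrullDim_eq_zero_of_field] using
      krull_le_of_quasiFinite (MvPolynomial (Fin n) k) B
  have h2 : (d : WithBot ℕ∞) ≤ ringKrullDim (B ⧸ Ideal.span {f}) := by
    algebraize [g.toRingHom]
    have : FaithfulSMul (MvPolynomial (Fin d) k) (B ⧸ Ideal.span {f}) :=
      (faithfulSMul_iff_algebraMap_injective ..).2 hg
    simpa [MvPolynomial.ringKrullDim_of_isNoetherianRing, ringKrullDim_eq_zero_of_field] using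
      krull_le_of_integral (MvPolynomial (Fin d) k) (B ⧸ Ideal.span {f})
  have h3 := ringKrullDim_quotient_succ_le_of_nonZeroDivisor (mem_nonZeroDivisors_of_ne_zero hf)
  have : ((d + 1 : ℕ) : WithBot ℕ∞) ≤ n := by
    push_cast
    exact (add_le_add_left h2 1).trans (h3.trans h1)
  exact_mod_cast this

section

variable {K R : Type} [CommRing K] [CommRing R] [Algebra K R] {ι : Type} [Fintype ι]

/-- Linear combinations of the differentials of the coordinates. -/
noncomputable def dComb (z : ι → R) : (ι → R) →ₗ[R] Ω[R⁄K] :=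
  Fintype.linearCombination R fun i => D K R (z i)

theorem dComb_eq [Algebra (MvPolynomial ι K) R] [IsScalarTower K (MvPolynomial ι K) R] :
    dComb (fun i => algebraMap (MvPolynomial ι K) R (X i)) =
      mapBaseChange K (MvPolynomial ι K) R ∘ₗ
        ((mvPolynomialBasis K ι).baseChange R).equivFun.symm.toLinearMap := by
  classical
  ext i
  simp [dComb, mapBaseChange_tmul, Pi.single_apply]

theorem dComb_bijective (φ : MvPolynomial ι K →ₐ[K] R) (h : φ.toRingHom.FormallyEtale) :
    Function.Bijective (dComb (K := K) fun i => φ (X i)) := by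
  algebraize [φ.toRingHom]
  have := IsScalarTower.of_algebraMap_eq' φ.comp_algebraMap.symm
  have e := dComb_eq (K := K) (R := R) (ι := ι)
  change dComb (fun i => φ (X i)) = _ at e
  rw [e]
  exact (tensorKaehlerEquivOfFormallyEtale K _ R).bijective.comp (LinearEquiv.bijective _)

theorem formallyEtale_of_dComb [Algebra.FormallySmooth K R] (φ : MvPolynomial ι K →ₐ[K] R)
    (h : Function.Bijective (dComb (K := K) fun i => φ (X i))) : φ.toRingHom.FormallyEtale := by
  algebraize [φ.toRingHom]
  have := IsScalarTower.of_algebraMap_eq' φ.comp_algebraMap.symm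
  have e := dComb_eq (K := K) (R := R) (ι := ι)
  change dComb (fun i => φ (X i)) = _ at e
  rw [e, LinearMap.coe_comp, LinearEquiv.coe_coe,
    Function.Bijective.of_comp_iff _ (LinearEquiv.bijective _)] at h
  refine ⟨⟨fun a b => ?_⟩, ⟨fun a b => ?_⟩⟩
  · have : ∀ a : Ω[R⁄MvPolynomial ι K], a = 0 := fun a => by
      obtain ⟨a, rfl⟩ := map_surjective K _ R a
      exact (exact_mapBaseChange_map K _ R a).2 (h.2 a)
    rw [this a, this b]
  · have : ∀ a : Algebra.H1Cotangent (MvPolynomial ι K) R, a = 0 := fun a => by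
      have h1 := (Algebra.H1Cotangent.exact_δ_mapBaseChange K _ R _).2 ⟨a, rfl⟩
      rw [map_eq_zero_iff _ h.1] at h1
      obtain ⟨c, rfl⟩ := (Algebra.H1Cotangent.exact_map_δ K _ R a).1 h1
      rw [Subsingleton.elim c 0, map_zero]
    rw [this a, this b]

theorem dComb_perturb [IsLocalRing R] (z y : ι → R) (hz : Function.Bijective (dComb (K := K) z))
    (hy : ∀ i, y i - z i ∈ IsLocalRing.maximalIdeal R ^ 2) :
    Function.Bijective (dComb (K := K) y) := by
  classical
  have : Module.Finite R Ω[R⁄K] := Module.Finite.of_surjective _ hz.2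
  have hs : Function.Surjective (dComb (K := K) y) := by
    rw [← LinearMap.range_eq_top, eq_top_iff]
    refine Submodule.le_of_le_smul_of_le_jacobson_bot Module.Finite.fg_top
      (IsLocalRing.maximalIdeal_le_jacobson ⊥) ?_
    rw [← LinearMap.range_eq_top.2 hz.2, dComb, Fintype.range_linearCombination, Submodule.span_le,
      ← Fintype.range_linearCombination, ← dComb, LinearMap.range_eq_top.2 hz.2]
    rintro _ ⟨i, rfl⟩
    have h1 : D K R (y i - z i) ∈ IsLocalRing.maximalIdeal R • (⊤ : Submodule R Ω[R⁄K]) := by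
      have := hy i
      rw [pow_two] at this
      refine Submodule.mul_induction_on this (fun a ha b hb => ?_) fun a b ha hb => ?_
      · rw [Derivation.leibniz]
        exact add_mem (Submodule.smul_mem_smul ha trivial) (Submodule.smul_mem_smul hb trivial)
      · rw [map_add]; exact add_mem ha hb
    have h2 : D K R (y i) ∈ LinearMap.range (dComb (K := K) y) :=
      ⟨Pi.single i 1, by simp [dComb]⟩
    have := sub_mem (Submodule.mem_sup_left h2) (Submodule.mem_sup_right h1)
    rwa [map_sub, sub_sub_cancel] at this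
  exact ⟨OrzechProperty.injective_of_surjective_of_injective _ _ hz.1 hs, hs⟩

end

theorem flat_of_formallySmooth {P B R : Type} [CommRing P] [IsNoetherianRing P] [CommRing B]
    [CommRing R] [Algebra P B] [Algebra B R] [Algebra P R] [IsScalarTower P B R]
    [Algebra.FiniteType P B] (M : Submonoid B) [IsLocalization M R] [Algebra.FormallySmooth P R] :
    Module.Flat P R := by
  obtain ⟨n, π, hπ⟩ := Algebra.FiniteType.iff_quotient_mvPolynomial''.1 ‹Algebra.FiniteType P B›
  let S := Localization (M.comap π)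
  let ψ : S →ₐ[P] R := IsLocalization.liftAlgHom (M := M.comap π)
    (f := (IsScalarTower.toAlgHom P B R).comp π) fun y => IsLocalization.map_units R (⟨_, y.2⟩ : M)
  have : Module.Flat P S := .trans P (MvPolynomial (Fin n) P) S
  have : IsNoetherianRing S := IsLocalization.isNoetherianRing (M.comap π) S inferInstance
  refine Algebra.FormallySmooth.flat_of_algHom_of_isNoetherianRing ψ fun r => ?_
  obtain ⟨⟨c, s, hs⟩, rfl⟩ := IsLocalization.mk'_surjective M r
  obtain ⟨c, rfl⟩ := hπ c
  obtain ⟨s, rfl⟩ := hπ s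
  refine ⟨IsLocalization.mk' S c (⟨s, hs⟩ : M.comap π), ?_⟩
  simp only [ψ, IsLocalization.liftAlgHom_apply]
  rw [IsLocalization.lift_mk'_spec]
  simp

end Pool.Agent.MP_e8e0b6_ag
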