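import Pool.Agent.MP_e8e0b6_ag.QS.Quillen
import Mathlib

/-!
Descent of flatness, patching of projective modules, and Roitman's theorem.
-/

open Matrix Polynomial TensorProduct

namespace Pool.Agent.MP_e8e0b6_ag

theorem map_ann_eq_top {B D M : Type} [CommRing B] [CommRing D] [Algebra B D] [Module.Flat B D]
    [AddCommGroup M] [Module B M] (x : M) (h : (1 : D) ⊗ₜ[B] x = 0) :
    Ideal.map (algebraMap B D) (LinearMap.ker (LinearMap.toSpanSingleton B M x)) = ⊤ := by
  have := Module.Flat.lTensor_exact D
    (LinearMap.exact_subtype_ker_map (LinearMap.toSpanSingleton B M x)) ((1 : D) ⊗ₜ[B] 1)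
  obtain ⟨y, hy⟩ := this.1 (by simpa using h)
  have key : ∀ y, TensorProduct.rid B D (LinearMap.lTensor D
      (LinearMap.ker (LinearMap.toSpanSingleton B M x)).subtype y) ∈
      Ideal.map (algebraMap B D) (LinearMap.ker (LinearMap.toSpanSingleton B M x)) := by
    intro y
    induction y using TensorProduct.induction_on with
    | zero => simp
    | tmul d a =>
      simp only [LinearMap.lTensor_tmul, Submodule.subtype_apply, rid_tmul, Algebra.smul_def]
      exact Ideal.mul_mem_right _ _ (Ideal.mem_map_of_mem _ a.2)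
    | add a b ha hb => rw [map_add, map_add]; exact add_mem ha hb
  have := key y
  rw [hy] at this
  simpa [Ideal.eq_top_iff_one] using this

theorem flat_of_local_ext {B N : Type} [CommRing B] [AddCommGroup N] [Module B N]
    (h : ∀ m : Ideal B, m.IsMaximal → ∃ (D : Type) (_ : CommRing D) (_ : Algebra B D),
      Module.Flat B D ∧ m.map (algebraMap B D) ≠ ⊤ ∧ Module.Flat D (D ⊗[B] N)) :
    Module.Flat B N := by
  rw [Module.Flat.iff_rTensor_injective']
  intro I
  rw [injective_iff_map_eq_zero]
  intro x hx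
  by_contra h0
  have : LinearMap.ker (LinearMap.toSpanSingleton B _ x) ≠ ⊤ := fun e => h0 (by
    have : (1 : B) ∈ LinearMap.ker (LinearMap.toSpanSingleton B _ x) := e ▸ trivial
    simpa using this)
  obtain ⟨m, hm, hle⟩ := Ideal.exists_le_maximal _ this
  obtain ⟨D, _, _, _, h1, _⟩ := h m hm
  have : Module.Flat B (D ⊗[B] N) := Module.Flat.trans B D _
  have h2 := Module.Flat.iff_rTensor_injective'.1 this I
  have h3 : (1 : D) ⊗ₜ[B] x = 0 := by
    apply (TensorProduct.leftComm B D I N).injective
    apply h2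
    have : ∀ y, LinearMap.rTensor (D ⊗[B] N) I.subtype (TensorProduct.leftComm B D I N (1 ⊗ₜ y)) =
        TensorProduct.leftComm B D B N (1 ⊗ₜ LinearMap.rTensor N I.subtype y) := fun y => by
      induction y using TensorProduct.induction_on with
      | zero => simp
      | tmul a b => simp
      | add a b ha hb => simp only [tmul_add, map_add, ha, hb]
    rw [this, hx]; simp
  exact h1 (eq_top_iff.2 ((map_ann_eq_top x h3).ge.trans (Ideal.map_mono hle)))

/-- Flat base change of a submodule. -/
noncomputable def spanEquiv {B V V' : Type} (D : Type) [CommRing B] [CommRing D] [Algebra B D]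
    [Module.Flat B D] [AddCommGroup V] [Module B V] [AddCommGroup V'] [Module B V'] [Module D V']
    [IsScalarTower B D V'] (j : V →ₗ[B] V') (hj : Function.Injective (j.liftBaseChange D))
    (N : Submodule B V) : D ⊗[B] N ≃ₗ[D] Submodule.span D (j '' N) :=
  (LinearEquiv.ofInjective ((j ∘ₗ N.subtype).liftBaseChange D) (by
    have : ⇑((j ∘ₗ N.subtype).liftBaseChange D) = j.liftBaseChange D ∘ N.subtype.lTensor D := by
      ext y
      induction y using TensorProduct.induction_on with
      | zero => simp
      | tmul a b => simp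
      | add a b ha hb => simp only [Function.comp_apply, map_add] at *; rw [ha, hb]
    rw [this]
    exact hj.comp (Module.Flat.lTensor_preserves_injective_linearMap _ N.injective_subtype))).trans
  (LinearEquiv.ofEq _ _ (by
    rw [LinearMap.range_liftBaseChange, LinearMap.range_comp, Submodule.range_subtype]; rfl))

theorem pi_liftBaseChange_injective {B : Type} (D : Type) [CommRing B] [CommRing D] [Algebra B D]
    (r : ℕ) :
    Function.Injective (((Algebra.linearMap B D).compLeft (Fin r)).liftBaseChange D) := by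
  have : ((Algebra.linearMap B D).compLeft (Fin r)).liftBaseChange D =
      (piScalarRight B D D (Fin r)).toLinearMap := by
    ext i j
    simp [Pi.single_apply, Algebra.smul_def]
  rw [this]
  exact (piScalarRight B D D (Fin r)).injective

theorem flat_of_span_top {B : Type} (D : Type) [CommRing B] [CommRing D] [Algebra B D]
    [Module.Flat B D] {r : ℕ} (N : Submodule B (Fin r → B))
    (h : Submodule.span D ((Algebra.linearMap B D).compLeft (Fin r) '' N) = ⊤) :
    Module.Flat D (D ⊗[B] N) := by
  have e := spanEquiv D ((Algebra.linearMap B D).compLeft (Fin r))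
    (pi_liftBaseChange_injective D r) N
  rw [h] at e
  exact Module.Flat.of_linearEquiv (e.trans Submodule.topEquiv)

theorem map_ne_top_of {B B' : Type} [CommRing B] [CommRing B'] [Algebra B B'] (F : B)
    (h1 : ∀ b' : B', ∃ b x, b' = algebraMap B B' b + algebraMap B B' F * x)
    (h2 : ∀ b x, algebraMap B B' b = algebraMap B B' F * x → F ∣ b) (m : Ideal B) (hm : m ≠ ⊤)
    (hF : F ∈ m) : m.map (algebraMap B B') ≠ ⊤ := by
  intro h
  have key : ∀ y ∈ m.map (algebraMap B B'), ∃ b ∈ m, ∃ x,
      y = algebraMap B B' b + algebraMap B B' F * x := by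
    intro y hy
    refine Submodule.span_induction ?_ ?_ ?_ ?_ hy
    · rintro _ ⟨b, hb, rfl⟩; exact ⟨b, hb, 0, by simp⟩
    · exact ⟨0, zero_mem _, 0, by simp⟩
    · rintro _ _ - - ⟨b, hb, x, rfl⟩ ⟨b', hb', x', rfl⟩
      exact ⟨b + b', add_mem hb hb', x + x', by rw [map_add]; ring⟩
    · rintro a _ - ⟨b, hb, x, rfl⟩
      obtain ⟨c, z, rfl⟩ := h1 a
      exact ⟨c * b, m.mul_mem_left _ hb, z * algebraMap B B' b + algebraMap B B' c * x +
        algebraMap B B' F * z * x, by rw [map_mul, smul_eq_mul]; ring⟩
  obtain ⟨b, hb, x, e⟩ := key 1 (h ▸ trivial)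
  obtain ⟨c, hc⟩ := h2 (1 - b) x (by rw [map_sub, map_one, e]; ring)
  refine hm ((Ideal.eq_top_iff_one _).2 ?_)
  have : 1 = b + F * c := by rw [← hc]; ring
  rw [this]
  exact add_mem hb (m.mul_mem_right _ hF)

theorem patch {B B' : Type} [CommRing B] [CommRing B'] [IsNoetherianRing B] [IsDomain B']
    [Algebra B B'] [Module.Flat B B'] (hB : AllFree B) (F : B) (hF : algebraMap B B' F ≠ 0)
    (h1 : ∀ b' : B', ∃ b x, b' = algebraMap B B' b + algebraMap B B' F * x)
    (h2 : ∀ b x, algebraMap B B' b = algebraMap B B' F * x → F ∣ b) {n r : ℕ} (c : ℕ)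
    (e : Matrix (Fin n) (Fin n) B') (he : e * e = e) (Y : Matrix (Fin n) (Fin r) B')
    (Y' : Matrix (Fin r) (Fin n) B') (hY : Y' * Y = algebraMap B B' F ^ c • 1)
    (hY' : Y * Y' = algebraMap B B' F ^ c • e) : RF e := by
  set f := algebraMap B B' F ^ c with hf
  have hf0 : f ≠ 0 := pow_ne_zero _ hF
  have h1' : ∀ b' : B', ∃ b x, b' = algebraMap B B' b + f * x := by
    rw [hf]
    clear hY hY' hf0 hf f
    induction c with
    | zero => exact fun b' => ⟨0, b', by simp⟩
    | succ c ih =>
      intro b'
      obtain ⟨b, x, rfl⟩ := ih b'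
      obtain ⟨a, y, rfl⟩ := h1 x
      exact ⟨b + F ^ c * a, y, by rw [map_add, map_mul, map_pow]; ring⟩
  let j := (Algebra.linearMap B B').compLeft (Fin r)
  let N' := LinearMap.range (toLin' Y')
  let N : Submodule B (Fin r → B) := (N'.restrictScalars B).comap j
  have hfN' : ∀ v, f • v ∈ N' := fun v =>
    ⟨Y *ᵥ v, by rw [toLin'_apply, mulVec_mulVec, hY, smul_mulVec, one_mulVec]⟩
  have hFN : ∀ i, F ^ c • (Pi.single i 1 : Fin r → B) ∈ N := fun i => by
    change j _ ∈ N'
    have : j (F ^ c • Pi.single i 1) = f • Pi.single i 1 := by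
      ext k; by_cases h : k = i <;> simp [j, hf, h]
    rw [this]; exact hfN' _
  have gen : ∀ (D : Type) [CommRing D] [Algebra B D] (w : Fin r → D), algebraMap B D F ^ c • w ∈
      Submodule.span D ((Algebra.linearMap B D).compLeft (Fin r) '' N) := fun D _ _ w => by
    rw [← Finset.univ_sum_single w, Finset.smul_sum]
    refine Submodule.sum_mem _ fun i _ => ?_
    have : algebraMap B D F ^ c • (Pi.single i (w i) : Fin r → D) =
        w i • (Algebra.linearMap B D).compLeft (Fin r) (F ^ c • Pi.single i 1) := by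
      ext k; by_cases h : k = i <;> simp [h, mul_comm, Algebra.smul_def]
    rw [this]
    exact Submodule.smul_mem _ _ (Submodule.subset_span ⟨_, hFN i, rfl⟩)
  have hspan : Submodule.span B' (j '' N) = N' := by
    refine le_antisymm (Submodule.span_le.2 ?_) fun v hv => ?_
    · rintro _ ⟨v, hv, rfl⟩; exact hv
    · choose b x hb using fun i => h1' (v i)
      have e1 : v = j b + f • x := funext hb
      have : j b ∈ N' := by
        rw [eq_sub_of_add_eq e1.symm]; exact sub_mem hv (hfN' x)
      rw [e1]
      exact add_mem (Submodule.subset_span ⟨b, this, rfl⟩) (gen B' x)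
  have hYe : Y' * e = Y' := by
    apply smul_right_injective _ hf0
    change f • _ = f • _
    rw [← Matrix.mul_smul, ← hY', ← Matrix.mul_assoc, hY, Matrix.smul_mul, Matrix.one_mul]
  let ε : LinearMap.range (toLin' e) ≃ₗ[B'] N' :=
    LinearEquiv.ofBijective ((toLin' Y').rangeRestrict ∘ₗ Submodule.subtype _) ⟨by
      rw [injective_iff_map_eq_zero]
      rintro ⟨_, v, rfl⟩ h
      have h' : Y' *ᵥ (e *ᵥ v) = 0 := congrArg Subtype.val h
      have := congrArg (Y *ᵥ ·) h'
      simp only [mulVec_mulVec, ← Matrix.mul_assoc, hY', Matrix.smul_mul, he, smul_mulVec,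
        mulVec_zero] at this
      exact Subtype.ext ((smul_eq_zero.1 this).resolve_left hf0), by
      rintro ⟨_, v, rfl⟩
      refine ⟨⟨_, v, rfl⟩, Subtype.ext ?_⟩
      change Y' *ᵥ (e *ᵥ v) = Y' *ᵥ v
      rw [mulVec_mulVec, hYe]⟩
  let δ : B' ⊗[B] N ≃ₗ[B'] LinearMap.range (toLin' e) :=
    (spanEquiv B' j (pi_liftBaseChange_injective B' r) N).trans
      ((LinearEquiv.ofEq _ _ hspan).trans ε.symm)
  have := projective_range he
  have : Module.Flat B N := flat_of_local_ext fun m hm => by
    by_cases hFm : F ∈ m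
    · exact ⟨B', inferInstance, inferInstance, inferInstance, map_ne_top_of F h1 h2 m hm.ne_top hFm,
        Module.Flat.of_linearEquiv δ⟩
    · let D := Localization.Away F
      refine ⟨D, inferInstance, inferInstance, inferInstance, ?_, ?_⟩
      · refine (IsLocalization.map_algebraMap_ne_top_iff_disjoint (Submonoid.powers F) D m).2 ?_
        rw [Set.disjoint_left]
        rintro _ ⟨k, rfl⟩ hk
        exact hFm (hm.isPrime.mem_of_pow_mem k hk)
      · have : Submodule.span D ((Algebra.linearMap B D).compLeft (Fin r) '' N) = ⊤ := by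
          rw [eq_top_iff]
          rintro w -
          obtain ⟨u, hu⟩ := (IsLocalization.Away.algebraMap_isUnit (S := D) F).pow c
          have := gen D (((u⁻¹ : Dˣ) : D) • w)
          rwa [← hu, smul_smul, Units.mul_inv, one_smul] at this
        exact flat_of_span_top D N this
  have : Module.FinitePresentation B N := Module.finitePresentation_of_finite B N
  have : Module.Projective B N := Module.Flat.projective_of_finitePresentation
  have := hB.free N
  exact RF.of_free he (Module.Free.of_equiv δ)

attribute [local instance] Polynomial.algebra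

theorem flat_poly (B B' : Type) [CommRing B] [CommRing B'] [Algebra B B'] [Module.Flat B B'] :
    Module.Flat B[X] B'[X] :=
  Module.Flat.isBaseChange B B[X] B' B'[X] (Algebra.IsPushout.out (R := B) (S := B[X]) (R' := B'))

theorem roitman_away {B A : Type} [CommRing B] [IsDomain B] [IsNoetherianRing B] [CommRing A]
    [IsDomain A] [Algebra B A] (s : B) (hs : s ≠ 0) [IsLocalization.Away s A] (hB : AllFree B[X])
    {n : ℕ} (e : Matrix (Fin n) (Fin n) A[X]) (he : e * e = e) (h0 : RF (e.map (evalRingHom 0))) :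
    RF e := by
  have hinj : Function.Injective (algebraMap B A) :=
    IsLocalization.injective A (powers_le_nonZeroDivisors_of_noZeroDivisors hs)
  obtain ⟨r, Y, Y', h1, h2⟩ := h0
  let e₀ := (e.map (evalRingHom 0)).map (C : A →+* A[X])
  have he₀ : e₀ * e₀ = e₀ := by rw [← Matrix.map_mul, ← Matrix.map_mul, he]
  let G := e * e₀ + (1 - e) * (1 - e₀)
  have hG : G * e₀ = e * G := by
    simp only [G, add_mul, mul_add, mul_assoc, sub_mul, mul_sub, one_mul, mul_one, he₀,
      ← mul_assoc e e, he]
    abel
  have hG0 : G.det.coeff 0 = 1 := by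
    have e1 : e₀.map (evalRingHom 0) = e.map (evalRingHom 0) := by ext; simp [e₀]
    have e2 : e.map (evalRingHom 0) * e.map (evalRingHom 0) = e.map (evalRingHom 0) := by
      rw [← Matrix.map_mul, he]
    rw [coeff_zero_eq_eval_zero, ← coe_evalRingHom, RingHom.map_det]
    simp only [G, map_add, map_mul, map_sub, map_one, RingHom.mapMatrix_apply, e1, mul_sub, sub_mul,
      one_mul, mul_one, e2]
    simp
  obtain ⟨c, ⟨k, rfl⟩, q, hq⟩ := exists_scale (RingHom.id B) (algebraMap B A) (Submonoid.powers s)
    (fun z => by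
      obtain ⟨⟨a, c⟩, h⟩ := IsLocalization.surj (Submonoid.powers s) z
      exact ⟨c, c.2, a, by rw [← h, mul_comm]; rfl⟩) (fun _ : Unit => G.det)
    (fun _ => ⟨1, by rw [hG0, map_one]⟩)
  replace hq := hq ()
  obtain ⟨u, hu⟩ := (IsLocalization.Away.algebraMap_isUnit (S := A) s).pow (k + 1)
  let σ := compRingHom (C (u : A) * X)
  let τ := compRingHom (C ((u⁻¹ : Aˣ) : A) * X)
  have hστ : τ.comp σ = RingHom.id _ := by
    ext1
    · ext; simp [σ, τ]
    · simp [σ, τ, ← mul_assoc, ← C_mul]
  let F := (q ()).comp (C s * X)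
  have hF : algebraMap B[X] A[X] F = (G.map σ).det := by
    rw [← RingHom.mapMatrix_apply, ← RingHom.map_det]
    change F.map _ = G.det.comp _
    rw [Polynomial.map_comp, hq, comp_assoc, hu]
    simp [pow_succ, mul_assoc]
  have hq0 : (q ()).coeff 0 = 1 := hinj (by
    rw [← coeff_map, hq, comp_C_mul_X_coeff, hG0]; simp)
  obtain ⟨g, hg⟩ : C s ∣ F - 1 := by
    rw [C_dvd_iff_dvd_coeff]
    intro i
    rw [coeff_sub, comp_C_mul_X_coeff]
    rcases i with _ | i
    · simp [hq0]
    · rw [coeff_one, if_neg i.succ_ne_zero, sub_zero, pow_succ, ← mul_assoc]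
      exact dvd_mul_left _ _
  have hcop : ∀ m : ℕ, IsCoprime F (C s ^ m) := fun m =>
    IsCoprime.pow_right ⟨1, -g, by linear_combination hg⟩
  have : IsLocalization.Away (C s) A[X] := by
    have := Polynomial.isLocalization (Submonoid.powers s) A
    rwa [Submonoid.map_powers] at this
  have hinj' : Function.Injective (algebraMap B[X] A[X]) := map_injective _ hinj
  have : Module.Flat B A := IsLocalization.flat A (Submonoid.powers s)
  have := flat_poly B A
  have e1 : e₀.map σ = e₀ := by ext1; simp [e₀, σ]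
  have e2 : G.map σ * e₀ = e.map σ * G.map σ := by rw [← Matrix.map_mul, ← hG, Matrix.map_mul, e1]
  have e3 : Y'.map C * Y.map C = (1 : Matrix _ _ A[X]) := by rw [← Matrix.map_mul, h1]; simp
  have e4 : Y.map C * Y'.map C = e₀ := by rw [← Matrix.map_mul, h2]
  have main := patch (B' := A[X]) hB F (fun h => by
      have := congrArg (coeff · 0) (hinj' (h.trans (map_zero _).symm))
      simp [F, comp_C_mul_X_coeff, hq0] at this)
    (fun b' => by
      obtain ⟨m, a, h⟩ := IsLocalization.Away.surj (C s) b'
      obtain ⟨x, y, hxy⟩ := hcop m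
      refine ⟨y * a, algebraMap _ _ x * b', ?_⟩
      have := congrArg (algebraMap B[X] A[X]) hxy
      rw [map_add, map_mul, map_mul, map_pow, map_one] at this
      rw [map_mul, ← h]
      linear_combination -b' * this)
    (fun b x h => by
      obtain ⟨m, a, h'⟩ := IsLocalization.Away.surj (C s) x
      refine (hcop m).dvd_of_dvd_mul_right ⟨a, hinj' ?_⟩
      rw [map_mul, map_mul, map_pow, h, ← h', mul_assoc])
    1 (e.map σ) (by rw [← Matrix.map_mul, he]) (G.map σ * Y.map C) (Y'.map C * (G.map σ).adjugate)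
    (by rw [Matrix.mul_assoc, ← Matrix.mul_assoc _ (G.map σ), adjugate_mul, Matrix.smul_mul,
      Matrix.mul_smul, Matrix.one_mul, e3, hF, pow_one])
    (by rw [Matrix.mul_assoc, ← Matrix.mul_assoc (Y.map C), e4, ← Matrix.mul_assoc, e2,
      Matrix.mul_assoc, mul_adjugate, hF, pow_one, Matrix.mul_smul, Matrix.mul_one])
  have := main.map τ
  rwa [Matrix.map_map, ← RingHom.coe_comp, hστ, RingHom.coe_id, Matrix.map_id] at this

theorem roitman {B A : Type} [CommRing B] [IsDomain B] [IsNoetherianRing B] [CommRing A]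
    [Algebra B A] (S : Submonoid B) (hS : S ≤ nonZeroDivisors B) [IsLocalization S A]
    (hB : AllFree B[X]) (hA : AllFree A) : AllFree A[X] := by
  classical
  intro n e he
  obtain ⟨r, Y, Y', h1, h2⟩ := hA n (e.map (evalRingHom 0)) (by rw [← Matrix.map_mul, he])
  obtain ⟨s, hs⟩ := IsLocalization.exist_integer_multiples_of_finset S
    ((Finset.univ.biUnion fun p : Fin n × Fin n => (e p.1 p.2).coeffs) ∪
      (Finset.univ.biUnion fun p : Fin n × Fin r => {Y p.1 p.2, Y' p.2 p.1}))
  have hs0 : s.1 ≠ 0 := nonZeroDivisors.ne_zero (hS s.2)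
  let A₁ := Localization.Away s.1
  have : IsDomain A₁ :=
    IsLocalization.isDomain_localization (powers_le_nonZeroDivisors_of_noZeroDivisors hs0)
  let φ : A₁ →+* A := IsLocalization.Away.lift s.1 (IsLocalization.map_units A s)
  have hφ : ∀ b, φ (algebraMap B A₁ b) = algebraMap B A b := IsLocalization.Away.lift_eq _ _
  have hinj : Function.Injective φ := by
    rw [injective_iff_map_eq_zero]
    intro z hz
    obtain ⟨m, a, h⟩ := IsLocalization.Away.surj s.1 z
    have h' := congrArg φ h
    rw [map_mul, hz, zero_mul, hφ, eq_comm, map_eq_zero_iff _ (IsLocalization.injective A hS)] at h'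
    rw [h', map_zero] at h
    exact (mul_eq_zero.1 h).resolve_right
      ((IsLocalization.Away.algebraMap_isUnit (S := A₁) s.1).pow m).ne_zero
  have lift : ∀ z : A, IsLocalization.IsInteger B (s.1 • z) → ∃ w, φ w = z := by
    rintro z ⟨a, ha⟩
    refine ⟨algebraMap B A₁ a * IsLocalization.Away.invSelf s.1, ?_⟩
    rw [map_mul, hφ, ha, Algebra.smul_def, ← hφ, mul_right_comm, ← map_mul,
      IsLocalization.Away.mul_invSelf, map_one, one_mul]
  have l1 : ∀ i j, ∃ w : A₁[X], mapRingHom φ w = e i j := fun i j => by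
    change _ ∈ lifts φ
    rw [lifts_iff_coeff_lifts]
    intro m
    by_cases hm : (e i j).coeff m = 0
    · exact ⟨0, by simp [hm]⟩
    · exact lift _ (hs _ (Finset.mem_union_left _
        (Finset.mem_biUnion.2 ⟨(i, j), Finset.mem_univ _, coeff_mem_coeffs hm⟩)))
  choose e₁ he₁ using l1
  choose Y₁ hY₁ using fun i j => lift (Y i j) (hs _ (Finset.mem_union_right _
    (Finset.mem_biUnion.2 ⟨(i, j), Finset.mem_univ _, by simp⟩)))
  choose Y₁' hY₁' using fun j i => lift (Y' j i) (hs _ (Finset.mem_union_right _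
    (Finset.mem_biUnion.2 ⟨(i, j), Finset.mem_univ _, by simp⟩)))
  have g1 : (Matrix.of e₁).map (mapRingHom φ) = e := by ext1; exact he₁ _ _
  have g2 : (Matrix.of Y₁).map φ = Y := by ext1; exact hY₁ _ _
  have g3 : (Matrix.of Y₁').map φ = Y' := by ext1; exact hY₁' _ _
  rw [← g1]
  refine (roitman_away s.1 hs0 hB (Matrix.of e₁) ?_ ⟨r, Matrix.of Y₁, Matrix.of Y₁', ?_, ?_⟩).map _
  · refine Matrix.map_injective (map_injective φ hinj) ?_
    change Matrix.map _ (mapRingHom φ) = Matrix.map _ (mapRingHom φ)
    rw [Matrix.map_mul, g1, he]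
  · refine Matrix.map_injective hinj ?_
    change Matrix.map _ φ = Matrix.map _ φ
    rw [Matrix.map_mul, g2, g3, h1]; simp
  · refine Matrix.map_injective hinj ?_
    change Matrix.map _ φ = Matrix.map _ φ
    rw [Matrix.map_mul, g2, g3, h2, ← g1]
    ext i j
    simp [← coeff_zero_eq_eval_zero]

end Pool.Agent.MP_e8e0b6_ag
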