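import Pool.Agent.MP_e8e0b6_ag.QS.Horrocks
import Mathlib.RingTheory.Localization.AtPrime.Basic
import Mathlib.Algebra.MvPolynomial.Equiv
import Mathlib.RingTheory.Localization.Algebra

/-!
Quillen patching and the Quillen-Suslin theorem.
-/

open Matrix Polynomial

namespace Pool.Agent.MP_e8e0b6_ag

theorem exists_scale {R D D' : Type} [CommRing R] [CommRing D] [CommRing D'] (α : R →+* D)
    (φ : D →+* D') (S : Submonoid R) (hS : ∀ z : D', ∃ c ∈ S, φ (α c) * z ∈ φ.range) {ι : Type}
    [Finite ι] (p : ι → D'[X]) (h0 : ∀ i, (p i).coeff 0 ∈ φ.range) :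
    ∃ c ∈ S, ∃ q : ι → D[X], ∀ i, (q i).map φ = (p i).comp (C (φ (α c)) * X) := by
  classical
  have := Fintype.ofFinite ι
  have key : ∀ s : Finset D', ∃ c ∈ S, ∀ z ∈ s, φ (α c) * z ∈ φ.range := by
    intro s
    induction s using Finset.induction_on with
    | empty => exact ⟨1, S.one_mem, by simp⟩
    | insert z s _ ih =>
      obtain ⟨c, hc, h⟩ := ih
      obtain ⟨d, hd, h'⟩ := hS z
      refine ⟨c * d, S.mul_mem hc hd, fun w hw => ?_⟩
      rw [map_mul, map_mul]
      rcases Finset.mem_insert.1 hw with rfl | hw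
      · rw [mul_assoc]; exact mul_mem ⟨_, rfl⟩ h'
      · rw [mul_right_comm]; exact mul_mem (h w hw) ⟨_, rfl⟩
  obtain ⟨c, hc, h⟩ := key (Finset.univ.biUnion fun i => (p i).coeffs)
  refine ⟨c, hc, ?_⟩
  have : ∀ i, ∃ q : D[X], q.map φ = (p i).comp (C (φ (α c)) * X) := fun i => by
    rw [← mem_lifts, lifts_iff_coeff_lifts]
    intro m
    rw [comp_C_mul_X_coeff]
    change _ ∈ φ.range
    rcases m with _ | m
    · simpa using h0 i
    · by_cases hm : (p i).coeff (m + 1) = 0
      · rw [hm, zero_mul]; exact zero_mem _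
      · rw [pow_succ, mul_comm, mul_assoc]
        exact mul_mem (pow_mem (RingHom.mem_range_self φ _) _)
          (h _ (Finset.mem_biUnion.2 ⟨i, Finset.mem_univ _, coeff_mem_coeffs hm⟩))
  choose q hq using this
  exact ⟨q, hq⟩

/-- Setting the variable to zero. -/
noncomputable def c0 (R : Type) [CommRing R] : R[X] →+* R[X] := C.comp (evalRingHom 0)

theorem conj_c0 {R : Type} [CommRing R] {n : ℕ} {e : Matrix (Fin n) (Fin n) R[X]} (h : RF e)
    (h' : RF (1 - e)) : Conj e (e.map (c0 R)) := by
  obtain ⟨r, Y, Y', h1, h2⟩ := h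
  obtain ⟨s, W, W', h3, h4⟩ := h'
  refine conj_of_frames (Z := Y.map (c0 R)) (Z' := Y'.map (c0 R)) (V := W.map (c0 R))
    (V' := W'.map (c0 R)) h1 h2 h3 h4 ?_ ?_ ?_ ?_
  · rw [← Matrix.map_mul, h1]; simp
  · rw [← Matrix.map_mul, h2]
  · rw [← Matrix.map_mul, h3]; simp
  · rw [← Matrix.map_mul, h4, Matrix.map_sub _ (map_sub _)]; simp

theorem exists_poly_denom {R R' : Type} [CommRing R] [CommRing R'] [Algebra R R'] (S : Submonoid R)
    [IsLocalization S R'] (z : R'[X]) :
    ∃ c ∈ S, mapRingHom (algebraMap R R') (C c) * z ∈ (mapRingHom (algebraMap R R')).range := by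
  obtain ⟨c, hc⟩ := IsLocalization.exist_integer_multiples_of_finset S z.coeffs
  refine ⟨c, c.2, ?_⟩
  change _ ∈ lifts _
  rw [lifts_iff_coeff_lifts]
  intro m
  rw [coe_mapRingHom, map_C, coeff_C_mul]
  by_cases hm : z.coeff m = 0
  · exact ⟨0, by simp [hm]⟩
  · obtain ⟨a, ha⟩ := hc _ (coeff_mem_coeffs hm)
    exact ⟨a, by rw [ha, Algebra.smul_def]⟩

theorem quillen_local {R R' : Type} [CommRing R] [CommRing R'] [Algebra R R'] (S : Submonoid R)
    [IsLocalization S R'] (hi : Function.Injective (algebraMap R R')) {n : ℕ}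
    (e : Matrix (Fin n) (Fin n) R[X])
    (h : Conj (e.map (mapRingHom (algebraMap R R'))) ((e.map (mapRingHom (algebraMap R R'))).map
      (c0 R'))) : ∃ c ∈ S, ∀ (D : Type) [CommRing D] [Algebra R D] (x y : D),
        Conj (e.map (aeval x)) (e.map (aeval (x + c • y))) := by
  let φ := mapRingHom (algebraMap R R')
  obtain ⟨G, G', h1, h2⟩ := h
  have h1' : G' * G = 1 := mul_eq_one_comm.1 h1
  let ψ : R'[X] →+* R'[X][X] := eval₂RingHom (C.comp C) (C X + X)
  let ι : R'[X] →+* R'[X][X] := C
  have hc : ((e.map φ).map (c0 R')).map ψ = ((e.map φ).map (c0 R')).map ι := by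
    ext1 i j; simp [ψ, ι, c0]
  have h3 : G' * (e.map φ).map (c0 R') = e.map φ * G' := by
    calc G' * (e.map φ).map (c0 R') = G' * ((e.map φ).map (c0 R') * G) * G' := by
          rw [mul_assoc, mul_assoc, h1, mul_one]
      _ = _ := by rw [← h2, ← mul_assoc, h1', one_mul]
  have hH : (G'.map ψ * G.map ι) * (G'.map ι * G.map ψ) = 1 := by
    rw [mul_assoc, ← mul_assoc (G.map ι), ← Matrix.map_mul, h1, Matrix.map_one _ (map_zero _)
      (map_one _), one_mul, ← Matrix.map_mul, h1', Matrix.map_one _ (map_zero _) (map_one _)]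
  have hH2 : (G'.map ψ * G.map ι) * (e.map φ).map ι = (e.map φ).map ψ * (G'.map ψ * G.map ι) := by
    rw [mul_assoc, ← Matrix.map_mul, h2, Matrix.map_mul, ← hc, ← mul_assoc, ← Matrix.map_mul, h3,
      Matrix.map_mul, mul_assoc]
  have e0 : ∀ M : Matrix (Fin n) (Fin n) R'[X], (M.map ψ).map (evalRingHom 0) = M := fun M => by
    have : (evalRingHom 0).comp ψ = RingHom.id _ := by ext <;> simp [ψ]
    ext1 i j
    exact RingHom.congr_fun this _
  have e1 : ∀ M : Matrix (Fin n) (Fin n) R'[X], (M.map ι).map (evalRingHom 0) = M := fun M => by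
    ext1 i j; simp [ι]
  have z1 : (G'.map ψ * G.map ι).map (evalRingHom 0) = 1 := by rw [Matrix.map_mul, e0, e1, h1']
  have z2 : (G'.map ι * G.map ψ).map (evalRingHom 0) = 1 := by rw [Matrix.map_mul, e0, e1, h1']
  generalize G'.map ψ * G.map ι = H at hH hH2 z1
  generalize G'.map ι * G.map ψ = H' at hH z2
  obtain ⟨c, hcS, q, hq⟩ := exists_scale C φ S (exists_poly_denom S)
    (fun p : Bool × Fin n × Fin n => cond p.1 (H p.2.1 p.2.2) (H' p.2.1 p.2.2)) (by
      have : ∀ i j, (1 : Matrix (Fin n) (Fin n) R'[X]) i j ∈ φ.range := fun i j => by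
        rw [Matrix.one_apply]; split_ifs; exacts [one_mem _, zero_mem _]
      rintro ⟨_ | _, i, j⟩
      · rw [coeff_zero_eq_eval_zero]; have := this i j; rw [← z2] at this; exact this
      · rw [coeff_zero_eq_eval_zero]; have := this i j; rw [← z1] at this; exact this)
  refine ⟨c, hcS, fun D _ _ x y => ?_⟩
  let σ := compRingHom (C (φ (C c)) * X)
  let K : Matrix (Fin n) (Fin n) R[X][X] := Matrix.of fun i j => q (true, i, j)
  let K' : Matrix (Fin n) (Fin n) R[X][X] := Matrix.of fun i j => q (false, i, j)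
  have hK : K.map (mapRingHom φ) = H.map σ := by ext1 i j; exact hq (true, i, j)
  have hK' : K'.map (mapRingHom φ) = H'.map σ := by ext1 i j; exact hq (false, i, j)
  have hφ : Function.Injective (mapRingHom φ) := map_injective _ (map_injective _ hi)
  let ψ' : R[X] →+* R[X][X] := eval₂RingHom (C.comp C) (C X + C (C c) * X)
  have f1 : (mapRingHom φ).comp ψ' = σ.comp (ψ.comp φ) := by ext <;> simp [ψ, ψ', σ, φ]
  have f2 : (mapRingHom φ).comp C = σ.comp (ι.comp φ) := by ext <;> simp [ι, σ, φ]
  have main : Conj (e.map C) (e.map ψ') := by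
    refine ⟨K, K', Matrix.map_injective hφ ?_, Matrix.map_injective hφ ?_⟩
    · change Matrix.map _ _ = Matrix.map _ _
      rw [Matrix.map_mul, hK, hK', ← Matrix.map_mul, hH]; simp
    · change Matrix.map _ _ = Matrix.map _ _
      rw [Matrix.map_mul, Matrix.map_mul, hK, Matrix.map_map, Matrix.map_map, ← RingHom.coe_comp,
        ← RingHom.coe_comp, f1, f2, RingHom.coe_comp, RingHom.coe_comp, RingHom.coe_comp,
        RingHom.coe_comp, ← Matrix.map_map, ← Matrix.map_map, ← Matrix.map_map, ← Matrix.map_map,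
        ← Matrix.map_mul, hH2, Matrix.map_mul]
  let τ : R[X][X] →+* D := eval₂RingHom (aeval x).toRingHom y
  have := main.map τ
  have g1 : τ.comp C = (aeval x : R[X] →ₐ[R] D).toRingHom := by ext <;> simp [τ]
  have g2 : τ.comp ψ' = (aeval (x + c • y) : R[X] →ₐ[R] D).toRingHom := by
    ext <;> simp [τ, ψ', Algebra.smul_def]
  rwa [Matrix.map_map, Matrix.map_map, ← RingHom.coe_comp, ← RingHom.coe_comp, g1, g2] at this

theorem quillen {R : Type} [CommRing R] [IsDomain R] {n : ℕ} (e : Matrix (Fin n) (Fin n) R[X])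
    (h : ∀ (m : Ideal R) [m.IsMaximal],
      Conj (e.map (mapRingHom (algebraMap R (Localization.AtPrime m))))
        ((e.map (mapRingHom (algebraMap R (Localization.AtPrime m)))).map (c0 _))) :
    Conj e (e.map (c0 R)) := by
  let I : Ideal R :=
    { carrier := {c | ∀ (D : Type) [CommRing D] [Algebra R D] (x y : D),
        Conj (e.map (aeval x)) (e.map (aeval (x + c • y)))}
      zero_mem' := fun D _ _ x y => by rw [zero_smul, add_zero]; exact Conj.refl _
      add_mem' := fun {c d} hc hd D _ _ x y => by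
        rw [add_smul, ← add_assoc]; exact (hc D x y).trans (hd D _ y)
      smul_mem' := fun a c hc D _ _ x y => by
        rw [smul_eq_mul, mul_comm, mul_smul]; exact hc D x _ }
  have hI : I = ⊤ := by
    by_contra hI
    obtain ⟨m, hm, hle⟩ := Ideal.exists_le_maximal I hI
    obtain ⟨c, hc, h'⟩ := quillen_local m.primeCompl
      (IsLocalization.injective _ m.primeCompl_le_nonZeroDivisors) e (h m)
    exact hc (hle h')
  have h1 : (1 : R) ∈ I := hI ▸ trivial
  have := (h1 R[X] 0 X).symm
  have g1 : e.map (aeval (0 + (1 : R) • X : R[X])) = e := by ext1 i j; simp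
  have g2 : e.map (aeval (0 : R[X])) = e.map (c0 R) := by
    ext1 i j; simp [c0, aeval_def, coeff_zero_eq_eval_zero]
  rwa [g1, g2] at this

theorem affine_horrocks {R : Type} [CommRing R] [IsDomain R] {n : ℕ}
    (e : Matrix (Fin n) (Fin n) R[X]) (he : e * e = e)
    (h : RF (e.map (algebraMap _ (Localization (monics R)))))
    (h' : RF ((1 - e).map (algebraMap _ (Localization (monics R))))) : Conj e (e.map (c0 R)) := by
  refine quillen e fun m _ => ?_
  let R' := Localization.AtPrime m
  let φ := mapRingHom (algebraMap R R')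
  let τ : Localization (monics R) →+* Localization (monics R') :=
    IsLocalization.map (M := monics R) (T := monics R') _ φ fun p hp => Monic.map _ hp
  have key : ∀ e : Matrix (Fin n) (Fin n) R[X], e * e = e →
      RF (e.map (algebraMap _ (Localization (monics R)))) → RF (e.map φ) := fun e he h => by
    refine horrocks (Localization (monics R')) _ (by rw [← Matrix.map_mul, he]) ?_
    have := h.map τ
    rwa [Matrix.map_map, ← RingHom.coe_comp, IsLocalization.map_comp, RingHom.coe_comp,
      ← Matrix.map_map] at this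
  refine conj_c0 (key e he h) ?_
  have := key (1 - e) (by rw [sub_mul, mul_sub, mul_sub, he]; simp) h'
  rwa [Matrix.map_sub _ (map_sub _), Matrix.map_one _ (map_zero _) (map_one _)] at this

theorem quillen_suslin (n : ℕ) : ∀ (K : Type) [Field K], AllFree (MvPolynomial (Fin n) K) := by
  induction n with
  | zero => exact fun K _ => allFree_of_pid.of_equiv (MvPolynomial.isEmptyRingEquiv K _).symm
  | succ n ih =>
    intro K _
    refine AllFree.of_equiv ?_ (MvPolynomial.finSuccEquiv K n).symm.toRingEquiv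
    let A := MvPolynomial (Fin n) K
    let T := Localization (monics A)
    let F := FractionRing K[X]
    let α : K[X] →+* T := (algebraMap A[X] T).comp (mapRingHom MvPolynomial.C)
    let β : F →+* T := IsLocalization.lift (M := nonZeroDivisors K[X]) (g := α) fun y => by
      have hy := nonZeroDivisors.ne_zero y.2
      have h1 : IsUnit (α (y * C (leadingCoeff y.1)⁻¹)) :=
        IsLocalization.map_units T (⟨_, (monic_mul_leadingCoeff_inv hy).map _⟩ : monics A)
      rw [map_mul] at h1
      exact isUnit_of_mul_isUnit_left h1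
    let γ : MvPolynomial (Fin n) F →+* T :=
      MvPolynomial.eval₂Hom β fun i => algebraMap A[X] T (C (MvPolynomial.X i))
    let ψ : A[X] →+* MvPolynomial (Fin n) F := eval₂RingHom
      (MvPolynomial.map ((algebraMap K[X] F).comp C)) (MvPolynomial.C (algebraMap K[X] F X))
    have hγ : γ.comp ψ = algebraMap A[X] T := by
      refine Polynomial.ringHom_ext' (MvPolynomial.ringHom_ext (fun c => ?_) fun i => ?_) ?_
      · simp only [ψ, RingHom.comp_apply, coe_eval₂RingHom, eval₂_C]
        erw [MvPolynomial.map_C]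
        simp [γ, β, α]
      · simp only [ψ, RingHom.comp_apply, coe_eval₂RingHom, eval₂_C]
        erw [MvPolynomial.map_X]
        simp [γ]
      · simp [γ, ψ, β, α]
    have key : ∀ m (e : Matrix (Fin m) (Fin m) A[X]), e * e = e → RF (e.map (algebraMap _ T)) :=
      fun m e he => by
        have := (ih F m (e.map ψ) (by rw [← Matrix.map_mul, he])).map γ
        rwa [Matrix.map_map, ← RingHom.coe_comp, hγ] at this
    intro m e he
    have hc := affine_horrocks e he (key m e he)
      (key m _ (by rw [sub_mul, mul_sub, mul_sub, he]; simp))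
    refine RF.of_conj ?_ hc.symm
    have := (ih K m (e.map (evalRingHom 0)) (by rw [← Matrix.map_mul, he])).map C
    rwa [Matrix.map_map, ← RingHom.coe_comp] at this

end Pool.Agent.MP_e8e0b6_ag
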